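import Mathlib

/-!
Definitions: mad families that are unions of few Borel, closed or one-element sets; the
distributivity number and the dominating number.
-/

namespace Pool.Agent.H60.AD

open Cardinal

/-- The members of the sets in `𝒜` code (as characteristic functions) a maximal almost disjoint
family of infinite sets of natural numbers. -/
structure UnionMad (𝒜 : Set (Set (ℕ → Bool))) : Prop where
  infinite : (⋃₀ 𝒜).Infinite
  mem_infinite : ∀ x ∈ ⋃₀ 𝒜, {n | x n = true}.Infinite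
  almost_disjoint : ∀ x ∈ ⋃₀ 𝒜, ∀ y ∈ ⋃₀ 𝒜, x ≠ y →
    ({n | x n = true} ∩ {n | y n = true}).Finite
  maximal : ∀ z : ℕ → Bool, {n | z n = true}.Infinite →
    ∃ x ∈ ⋃₀ 𝒜, ({n | x n = true} ∩ {n | z n = true}).Infinite

/-- `𝔞_Borel`: the least number of Borel sets whose union is a mad family. -/
noncomputable def aBorel : Cardinal.{0} :=
  sInf {κ : Cardinal.{0} | ∃ 𝒜 : Set (Set (ℕ → Bool)), #𝒜 = κ ∧
    (∀ A ∈ 𝒜, @MeasurableSet (ℕ → Bool) (borel (ℕ → Bool)) A) ∧ UnionMad 𝒜}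

/-- `𝔞_closed`: the least number of closed subsets of `[ω]^ω` whose union is a mad family. -/
noncomputable def aClosed : Cardinal.{0} :=
  sInf {κ : Cardinal.{0} | ∃ 𝒜 : Set (Set (ℕ → Bool)), #𝒜 = κ ∧
    (∀ A ∈ 𝒜, ∃ C : Set (ℕ → Bool), IsClosed C ∧ A = C ∩ {x | {n | x n = true}.Infinite}) ∧
    UnionMad 𝒜}

/-- `𝔞`: the least cardinality of an infinite maximal almost disjoint family. -/
noncomputable def aCard : Cardinal.{0} :=
  sInf {κ : Cardinal.{0} | ∃ M : Set (ℕ → Bool), #M = κ ∧ UnionMad {M}}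

/-- An open dense subset of `[ω]^ω` ordered by almost inclusion. -/
structure IsOpenDense (D : Set (Set ℕ)) : Prop where
  infinite : ∀ A ∈ D, A.Infinite
  down : ∀ A ∈ D, ∀ B : Set ℕ, B.Infinite → (B \ A).Finite → B ∈ D
  dense : ∀ A : Set ℕ, A.Infinite → ∃ B ∈ D, B ⊆ A

/-- `𝔥`: the least number of open dense subsets of `[ω]^ω` with empty intersection. -/
noncomputable def hCard : Cardinal.{0} :=
  sInf {κ : Cardinal.{0} | ∃ H : Set (Set (Set ℕ)), #H = κ ∧
    (∀ D ∈ H, IsOpenDense D) ∧ ⋂₀ H = ∅}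

/-- Some final part of `W` is homogeneous for the partition of `[ω]^ω` given by `R`. -/
def AlmostHomog (R : Set (ℕ → Bool)) (W : Set ℕ) : Prop :=
  ∃ m : ℕ, (∀ x : ℕ → Bool, {n | x n = true}.Infinite → {n | x n = true} ⊆ W ∩ Set.Ioi m → x ∈ R) ∨
    (∀ x : ℕ → Bool, {n | x n = true}.Infinite → {n | x n = true} ⊆ W ∩ Set.Ioi m → x ∉ R)

/-- The least number of Borel partitions of `[ω]^ω` into two parts without a common almost
homogeneous infinite set. -/
noncomputable def parCard : Cardinal.{0} :=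
  sInf {κ : Cardinal.{0} | ∃ 𝓡 : Set (Set (ℕ → Bool)), #𝓡 = κ ∧
    (∀ R ∈ 𝓡, @MeasurableSet (ℕ → Bool) (borel (ℕ → Bool)) R) ∧
    ∀ W : Set ℕ, W.Infinite → ∃ R ∈ 𝓡, ¬ AlmostHomog R W}

/-- `𝔡`: the least size of a family of functions dominating every function. -/
noncomputable def dCard : Cardinal.{0} :=
  sInf {κ : Cardinal.{0} | ∃ F : Set (ℕ → ℕ), #F = κ ∧
    ∀ g : ℕ → ℕ, ∃ f ∈ F, ∃ m : ℕ, ∀ n, m ≤ n → g n ≤ f n}

/-- `𝔟`: the least size of a family of functions that is not eventually dominated by one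
function. -/
noncomputable def bCard : Cardinal.{0} :=
  sInf {κ : Cardinal.{0} | ∃ F : Set (ℕ → ℕ), #F = κ ∧
    ∀ g : ℕ → ℕ, ∃ f ∈ F, ∀ m : ℕ, ∃ n, m ≤ n ∧ g n < f n}

/-- `π𝔭(U)`: the least size of a subfamily of `U` without an infinite pseudointersection. -/
noncomputable def pipCard (U : Ultrafilter ℕ) : Cardinal.{0} :=
  sInf {κ : Cardinal.{0} | ∃ G : Set (Set ℕ), #G = κ ∧ (∀ A ∈ G, A ∈ U) ∧
    ∀ W : Set ℕ, W.Infinite → ∃ A ∈ G, (W \ A).Infinite}

end Pool.Agent.H60.AD
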