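import Mathlib

/-!
The Galvin-Prikry theorem in the form needed here: every Borel family of infinite sets of natural
numbers is completely Ramsey, and the sets at which it is decided form an open dense family.
-/

namespace Pool.Agent.H60.AD

open Set

/-- The family `R` is decided by `A` after the finite part `s`. -/
def Dec (R : Set (Set ℕ)) (s A : Set ℕ) : Prop :=
  (∀ X ⊆ A, X.Infinite → s ∪ X ∈ R) ∨ (∀ X ⊆ A, X.Infinite → s ∪ X ∉ R)

/-- Completely Ramsey families. -/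
def CR (R : Set (Set ℕ)) : Prop :=
  ∀ s : Finset ℕ, ∀ A : Set ℕ, A.Infinite → ∃ B ⊆ A, B.Infinite ∧ Dec R s B

/-- `R` is decided along `A` after every sufficiently large element of `A`. -/
def Good (R : Set (Set ℕ)) (A : Set ℕ) : Prop :=
  ∃ m : ℕ, ∀ k ∈ A, m ≤ k → ∀ s : Finset ℕ, (∀ i ∈ s, i ≤ k) → Dec R s (A ∩ Ioi k)

theorem Dec.mono {R : Set (Set ℕ)} {s A B : Set ℕ} (h : Dec R s A) (hB : B ⊆ A) : Dec R s B := by
  rcases h with h | h
  · exact Or.inl fun X hX hi => h X (hX.trans hB) hi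
  · exact Or.inr fun X hX hi => h X (hX.trans hB) hi

/-- Finitely many dense hereditary requirements can be met together. -/
theorem finite_dense {ι : Type*} (T : Finset ι) (P : ι → Set ℕ → Prop)
    (hered : ∀ i A B, B ⊆ A → P i A → P i B)
    (dense : ∀ i ∈ T, ∀ A : Set ℕ, A.Infinite → ∃ B ⊆ A, B.Infinite ∧ P i B)
    (A : Set ℕ) (hA : A.Infinite) : ∃ B ⊆ A, B.Infinite ∧ ∀ i ∈ T, P i B := by
  classical
  induction T using Finset.induction_on with
  | empty => exact ⟨A, Subset.rfl, hA, by simp⟩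
  | insert a T ha ih =>
    obtain ⟨B, hBA, hB, hP⟩ := ih fun i hi => dense i (Finset.mem_insert_of_mem hi)
    obtain ⟨C, hCB, hC, hPC⟩ := dense a (Finset.mem_insert_self a T) B hB
    refine ⟨C, hCB.trans hBA, hC, fun i hi => ?_⟩
    rcases Finset.mem_insert.1 hi with rfl | hi
    · exact hPC
    · exact hered i B C hCB (hP i hi)

theorem inf_inter_Ioi {A : Set ℕ} (hA : A.Infinite) (k : ℕ) : (A ∩ Ioi k).Infinite := by
  have h : A ∩ Ioi k = A \ Iic k := by
    ext n; simp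
  rw [h]
  exact hA.sdiff (finite_Iic k)

/-- Fusion. -/
theorem fusion (Q : ℕ → ℕ → Set ℕ → Prop)
    (hered : ∀ j k A B, B ⊆ A → Q j k A → Q j k B)
    (dense : ∀ j k, ∀ A : Set ℕ, A.Infinite → ∃ B ⊆ A, B.Infinite ∧ Q j k B)
    (A : Set ℕ) (hA : A.Infinite) :
    ∃ b : ℕ → ℕ, StrictMono b ∧ (∀ j, b j ∈ A) ∧ ∀ j, Q j (b j) {n | ∃ i, j < i ∧ n = b i} := by
  classical
  have step : ∀ (j : ℕ) (k : ℕ) (S : {S : Set ℕ // S.Infinite}),
      ∃ T : {S : Set ℕ // S.Infinite}, T.1 ⊆ S.1 ∩ Ioi k ∧ Q j k T.1 := by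
    intro j k S
    obtain ⟨B, hB, hBi, hQ⟩ := dense j k _ (inf_inter_Ioi S.2 k)
    exact ⟨⟨B, hBi⟩, hB, hQ⟩
  choose F hF1 hF2 using step
  let elt : {S : Set ℕ // S.Infinite} → ℕ := fun S => S.2.nonempty.some
  have helt : ∀ S, elt S ∈ S.1 := fun S => S.2.nonempty.some_mem
  let S : ℕ → {S : Set ℕ // S.Infinite} := fun n => Nat.rec ⟨A, hA⟩ (fun j T => F j (elt T) T) n
  have hS0 : S 0 = ⟨A, hA⟩ := rfl
  have hS : ∀ j, S (j + 1) = F j (elt (S j)) (S j) := fun j => rfl
  have hsub : ∀ j, (S (j + 1)).1 ⊆ (S j).1 ∩ Ioi (elt (S j)) := by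
    intro j; rw [hS]; exact hF1 _ _ _
  have hanti : ∀ i j, i ≤ j → (S j).1 ⊆ (S i).1 := by
    intro i j hij
    induction j, hij using Nat.le_induction with
    | base => exact Subset.rfl
    | succ j _ ih => exact ((hsub j).trans inter_subset_left).trans ih
  refine ⟨fun j => elt (S j), ?_, ?_, ?_⟩
  · apply strictMono_nat_of_lt_succ
    intro j
    exact (hsub j (helt _)).2
  · intro j
    exact hanti 0 j (Nat.zero_le _) (helt _)
  · intro j
    refine hered j _ (S (j + 1)).1 _ ?_ (by rw [hS]; exact hF2 _ _ _)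
    rintro n ⟨i, hi, rfl⟩
    exact hanti (j + 1) i hi (helt _)

theorem range_inter_Ioi {b : ℕ → ℕ} (hb : StrictMono b) (j : ℕ) :
    range b ∩ Ioi (b j) = {n | ∃ i, j < i ∧ n = b i} := by
  ext n
  constructor
  · rintro ⟨⟨i, rfl⟩, hi⟩
    exact ⟨i, hb.lt_iff_lt.1 hi, rfl⟩
  · rintro ⟨i, hi, rfl⟩
    exact ⟨⟨i, rfl⟩, hb hi⟩

/-- Countably many completely Ramsey families are simultaneously good at a smaller set. -/
theorem exists_good (R : ℕ → Set (Set ℕ)) (hR : ∀ i, CR (R i)) (A : Set ℕ) (hA : A.Infinite) :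
    ∃ B ⊆ A, B.Infinite ∧ ∀ i, Good (R i) B := by
  classical
  obtain ⟨b, hb, hbA, hQ⟩ := fusion
    (fun j k B => ∀ i ≤ j, ∀ s : Finset ℕ, s ⊆ Finset.range (k + 1) → Dec (R i) s B)
    (fun j k A B hBA h i hi s hs => (h i hi s hs).mono hBA) (by
      intro j k A hA
      obtain ⟨B, hBA, hB, hP⟩ := finite_dense
        (Finset.range (j + 1) ×ˢ (Finset.range (k + 1)).powerset)
        (fun x B => Dec (R x.1) (x.2 : Finset ℕ) B) (fun x A B hBA h => h.mono hBA)
        (fun x _ A hA => hR x.1 x.2 A hA) A hA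
      refine ⟨B, hBA, hB, fun i hi s hs => hP (i, s) ?_⟩
      simp only [Finset.mem_product, Finset.mem_range, Finset.mem_powerset]
      exact ⟨by omega, hs⟩) A hA
  refine ⟨range b, by rintro _ ⟨j, rfl⟩; exact hbA j, Set.infinite_range_of_injective hb.injective,
    fun i => ⟨b i, ?_⟩⟩
  rintro _ ⟨j, rfl⟩ hj s hs
  rw [range_inter_Ioi hb]
  refine hQ j i (hb.le_iff_le.1 hj) s fun x hx => ?_
  rw [Finset.mem_range]
  exact Nat.lt_succ_of_le (hs x hx)

/-- The combinatorial forcing lemma: a family that is open at `A` is decided by some subset. -/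
theorem dec_of_open (O : Set (Set ℕ)) (A : Set ℕ) (hA : A.Infinite)
    (hopen : ∀ X ⊆ A, X.Infinite → X ∈ O → ∃ k ∈ X, ∀ Y ⊆ A ∩ Ioi k, Y.Infinite →
      (X ∩ Iic k) ∪ Y ∈ O) :
    ∃ B ⊆ A, B.Infinite ∧ Dec O ∅ B := by
  classical
  let acc : Finset ℕ → Set ℕ → Prop := fun t B => ∀ Y ⊆ B, Y.Infinite → (t : Set ℕ) ∪ Y ∈ O
  let rej : Finset ℕ → Set ℕ → Prop := fun t B => ∀ C ⊆ B, C.Infinite → ¬ acc t C
  have acc_mono : ∀ t B C, C ⊆ B → acc t B → acc t C :=
    fun t B C h hB Y hY hi => hB Y (hY.trans h) hi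
  have rej_mono : ∀ t B C, C ⊆ B → rej t B → rej t C :=
    fun t B C h hB D hD hi => hB D (hD.trans h) hi
  have hdense : ∀ t, ∀ B : Set ℕ, B.Infinite → ∃ C ⊆ B, C.Infinite ∧ (acc t C ∨ rej t C) := by
    intro t B hB
    by_cases h : ∃ C ⊆ B, C.Infinite ∧ acc t C
    · obtain ⟨C, hC, hi, ha⟩ := h
      exact ⟨C, hC, hi, Or.inl ha⟩
    · push Not at h
      exact ⟨B, Subset.rfl, hB, Or.inr fun C hC hi => h C hC hi⟩
  -- the first fusion
  obtain ⟨b, hb, hbA, hQ⟩ := fusion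
    (fun _ k B => ∀ t : Finset ℕ, t ⊆ Finset.range (k + 1) → (acc t B ∨ rej t B))
    (fun _ k A B hBA h t ht => (h t ht).imp (acc_mono t A B hBA) (rej_mono t A B hBA)) (by
      intro _ k A hA
      obtain ⟨B, hBA, hB, hP⟩ := finite_dense (Finset.range (k + 1)).powerset
        (fun t B => acc t B ∨ rej t B)
        (fun t A B hBA h => h.imp (acc_mono t A B hBA) (rej_mono t A B hBA))
        (fun t _ A hA => hdense t A hA) A hA
      exact ⟨B, hBA, hB, fun t ht => hP t (Finset.mem_powerset.2 ht)⟩) A hA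
  set A₁ := range b with hA₁
  have hA₁A : A₁ ⊆ A := by rintro _ ⟨j, rfl⟩; exact hbA j
  have hA₁i : A₁.Infinite := Set.infinite_range_of_injective hb.injective
  have hdec : ∀ k ∈ A₁, ∀ t : Finset ℕ, (∀ i ∈ t, i ≤ k) →
      acc t (A₁ ∩ Ioi k) ∨ rej t (A₁ ∩ Ioi k) := by
    rintro _ ⟨j, rfl⟩ t ht
    rw [hA₁, range_inter_Ioi hb]
    refine hQ j t fun x hx => ?_
    rw [Finset.mem_range]
    exact Nat.lt_succ_of_le (ht x hx)
  by_cases hacc : ∃ B ⊆ A₁, B.Infinite ∧ acc ∅ B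
  · obtain ⟨B, hB, hBi, ha⟩ := hacc
    refine ⟨B, hB.trans hA₁A, hBi, Or.inl fun X hX hi => ?_⟩
    have := ha X hX hi
    simpa using this
  push Not at hacc
  have hrej0 : rej ∅ A₁ := fun C hC hi => hacc C hC hi
  -- extension step
  have ext : ∀ (t : Finset ℕ) (C : Set ℕ), rej t C → C ⊆ A₁ →
      {n ∈ C | acc (insert n t) (C ∩ Ioi n)}.Finite := by
    intro t C hr hC
    by_contra hinf
    have hinf' : {n ∈ C | acc (insert n t) (C ∩ Ioi n)}.Infinite := hinf
    apply hr _ (sep_subset _ _) hinf'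
    intro Y hY hYi
    obtain ⟨n, hn, hmin⟩ : ∃ n ∈ Y, ∀ m ∈ Y, n ≤ m :=
      ⟨sInf Y, Nat.sInf_mem hYi.nonempty, fun m hm => Nat.sInf_le hm⟩
    have h1 := (hY hn).2 (Y ∩ Ioi n)
      (fun x hx => ⟨(hY hx.1).1, hx.2⟩) (inf_inter_Ioi hYi n)
    have h2 : ((insert n t : Finset ℕ) : Set ℕ) ∪ (Y ∩ Ioi n) = (t : Set ℕ) ∪ Y := by
      ext x
      simp only [Finset.coe_insert, mem_union, mem_insert_iff, Finset.mem_coe, mem_inter_iff,
        mem_Ioi]
      constructor
      · rintro ((rfl | h) | ⟨h, _⟩)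
        · exact Or.inr hn
        · exact Or.inl h
        · exact Or.inr h
      · rintro (h | h)
        · exact Or.inl (Or.inr h)
        · rcases (hmin x h).eq_or_lt with h' | h'
          · exact Or.inl (Or.inl h'.symm)
          · exact Or.inr ⟨h, h'⟩
    rw [h2] at h1
    exact h1
  -- second construction
  have step : ∀ F : {F : Finset ℕ // ∃ c ∈ A₁, (∀ i ∈ F, i ≤ c) ∧
      ∀ t ⊆ F, rej t (A₁ ∩ Ioi c)}, ∃ n ∈ A₁, (∀ i ∈ F.1, i < n) ∧
      ∀ t ⊆ insert n F.1, rej t (A₁ ∩ Ioi n) := by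
    rintro ⟨F, c, hc, hF, hrF⟩
    have hfin : (⋃ t ∈ F.powerset, {n ∈ A₁ ∩ Ioi c |
        acc (insert n t) (A₁ ∩ Ioi c ∩ Ioi n)}).Finite := by
      apply Set.Finite.biUnion (Finset.finite_toSet _)
      intro t ht
      exact ext t _ (hrF t (Finset.mem_powerset.1 ht)) inter_subset_left
    obtain ⟨n, hn, hnn⟩ := ((inf_inter_Ioi hA₁i c).sdiff hfin).nonempty
    have hcn : c < n := hn.2
    refine ⟨n, hn.1, fun i hi => lt_of_le_of_lt (hF i hi) hcn, fun t ht => ?_⟩
    have hII : A₁ ∩ Ioi c ∩ Ioi n = A₁ ∩ Ioi n := by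
      ext x
      simp only [mem_inter_iff, mem_Ioi]
      constructor
      · rintro ⟨⟨h1, _⟩, h3⟩
        exact ⟨h1, h3⟩
      · rintro ⟨h1, h3⟩
        exact ⟨⟨h1, hcn.trans h3⟩, h3⟩
    by_cases hnt : n ∈ t
    · have htF : t.erase n ⊆ F := by
        intro x hx
        rcases Finset.mem_insert.1 (ht (Finset.mem_of_mem_erase hx)) with h | h
        · exact absurd h (Finset.ne_of_mem_erase hx)
        · exact h
      have h1 : ¬ acc t (A₁ ∩ Ioi n) := by
        intro hacc'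
        apply hnn
        simp only [mem_iUnion]
        refine ⟨t.erase n, Finset.mem_powerset.2 htF, hn, ?_⟩
        rw [Finset.insert_erase hnt, hII]
        exact hacc'
      refine (hdec n hn.1 t fun i hi => ?_).resolve_left h1
      rcases Finset.mem_insert.1 (ht hi) with h | h
      · exact h.le
      · exact ((hF i h).trans hcn.le)
    · have htF : t ⊆ F := by
        intro x hx
        rcases Finset.mem_insert.1 (ht hx) with h | h
        · exact absurd (h ▸ hx) hnt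
        · exact h
      refine rej_mono t _ _ ?_ (hrF t htF)
      intro x hx
      exact ⟨hx.1, hcn.trans hx.2⟩
  choose N hN1 hN2 hN3 using step
  -- the initial state
  obtain ⟨c₀, hc₀⟩ := hA₁i.nonempty
  let St := {F : Finset ℕ // ∃ c ∈ A₁, (∀ i ∈ F, i ≤ c) ∧ ∀ t ⊆ F, rej t (A₁ ∩ Ioi c)}
  let s0 : St := ⟨∅, c₀, hc₀, by simp, by
    intro t ht
    rw [Finset.subset_empty.1 ht]
    exact rej_mono ∅ _ _ inter_subset_left hrej0⟩
  let nx : St → St := fun F => ⟨insert (N F) F.1, N F, hN1 F, by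
    intro i hi
    rcases Finset.mem_insert.1 hi with h | h
    · exact h.le
    · exact (hN2 F i h).le, hN3 F⟩
  let S : ℕ → St := fun n => Nat.rec s0 (fun _ T => nx T) n
  have hS : ∀ j, S (j + 1) = nx (S j) := fun j => rfl
  have hval : ∀ j, (S (j + 1)).1 = insert (N (S j)) (S j).1 := fun j => rfl
  let c : ℕ → ℕ := fun j => N (S j)
  have hmem : ∀ i j, i < j → c i ∈ (S j).1 := by
    intro i j hij
    induction j, hij using Nat.le_induction with
    | base => rw [hval]; exact Finset.mem_insert_self _ _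
    | succ j _ ih => rw [hval]; exact Finset.mem_insert_of_mem ih
  have hc : StrictMono c := by
    apply strictMono_nat_of_lt_succ
    intro j
    exact hN2 (S (j + 1)) (c j) (hmem j (j + 1) (Nat.lt_succ_self _))
  refine ⟨range c, ?_, Set.infinite_range_of_injective hc.injective, Or.inr ?_⟩
  · rintro _ ⟨j, rfl⟩
    exact hA₁A (hN1 (S j))
  · intro X hX hXi hXO
    rw [empty_union] at hXO
    have hXA : X ⊆ A := by
      intro x hx
      obtain ⟨j, rfl⟩ := hX hx
      exact hA₁A (hN1 (S j))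
    obtain ⟨k, hk, hY⟩ := hopen X hXA hXi hXO
    obtain ⟨j, rfl⟩ := hX hk
    have hfin : (X ∩ Iic (c j)).Finite := (finite_Iic (c j)).subset inter_subset_right
    set t := hfin.toFinset with ht
    have hsub : t ⊆ insert (N (S j)) (S j).1 := by
      intro x hx
      rw [ht, Finite.mem_toFinset] at hx
      obtain ⟨i, rfl⟩ := hX hx.1
      have hij : i ≤ j := hc.le_iff_le.1 hx.2
      rw [← hval]
      exact hmem i (j + 1) (Nat.lt_succ_of_le hij)
    have hr := hN3 (S j) t hsub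
    refine hr (A₁ ∩ Ioi (c j)) Subset.rfl (inf_inter_Ioi hA₁i _) ?_
    intro Y hYs hYi
    have := hY Y (hYs.trans (inter_subset_inter_left _ hA₁A)) hYi
    rw [ht, Finite.coe_toFinset]
    exact this

/-- The shifted family. -/
theorem dec_shift {R : Set (Set ℕ)} {s A : Set ℕ} (h : Dec {X | s ∪ X ∈ R} ∅ A) :
    Dec R s A := by
  rcases h with h | h
  · left
    intro X hX hi
    simpa using h X hX hi
  · right
    intro X hX hi
    simpa using h X hX hi

theorem CR.compl {R : Set (Set ℕ)} (h : CR R) : CR Rᶜ := by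
  intro s A hA
  obtain ⟨B, hBA, hB, hd⟩ := h s A hA
  refine ⟨B, hBA, hB, ?_⟩
  rcases hd with hd | hd
  · right
    intro X hX hi hc
    exact hc (hd X hX hi)
  · left
    intro X hX hi
    exact hd X hX hi

theorem union_split (s X : Set ℕ) (k : ℕ) : s ∪ X = (s ∪ (X ∩ Iic k)) ∪ (X ∩ Ioi k) := by
  ext x
  simp only [mem_union, mem_inter_iff, mem_Iic, mem_Ioi]
  constructor
  · rintro (h | h)
    · exact Or.inl (Or.inl h)
    · rcases le_or_gt x k with h' | h'
      · exact Or.inl (Or.inr ⟨h, h'⟩)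
      · exact Or.inr ⟨h, h'⟩
  · rintro ((h | h) | h)
    · exact Or.inl h
    · exact Or.inr h.1
    · exact Or.inr h.1

theorem exists_large {X : Set ℕ} (hX : X.Infinite) (n : ℕ) : ∃ k ∈ X, n ≤ k := by
  obtain ⟨k, hk⟩ := (inf_inter_Ioi hX n).nonempty
  exact ⟨k, hk.1, le_of_lt hk.2⟩

theorem CR.iUnion {R : ℕ → Set (Set ℕ)} (h : ∀ i, CR (R i)) : CR (⋃ i, R i) := by
  classical
  intro s A hA
  obtain ⟨A', hA'A, hA'i, hgood⟩ := exists_good R h A hA
  obtain ⟨B, hBA, hB, hd⟩ := dec_of_open {X | (s : Set ℕ) ∪ X ∈ ⋃ i, R i} A' hA'i (by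
    intro X hX hXi hXR
    simp only [mem_ofPred_eq, mem_iUnion] at hXR
    obtain ⟨i, hi⟩ := hXR
    obtain ⟨m, hm⟩ := hgood i
    obtain ⟨k, hkX, hk⟩ := exists_large hXi (max m (s.sup id))
    have hfin : (X ∩ Iic k).Finite := (finite_Iic k).subset inter_subset_right
    have hs : ∀ x ∈ s, x ≤ k := fun x hx =>
      (Finset.le_sup (f := id) hx).trans ((le_max_right _ _).trans hk)
    have hdec := hm k (hX hkX) ((le_max_left _ _).trans hk) (s ∪ hfin.toFinset) (by
      intro x hx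
      rcases Finset.mem_union.1 hx with hx | hx
      · exact hs x hx
      · rw [Finite.mem_toFinset] at hx
        exact hx.2)
    rw [Finset.coe_union, Finite.coe_toFinset] at hdec
    have hpos : ∀ Y ⊆ A' ∩ Ioi k, Y.Infinite → ((s : Set ℕ) ∪ (X ∩ Iic k)) ∪ Y ∈ R i := by
      rcases hdec with hdec | hdec
      · exact hdec
      · exfalso
        refine hdec (X ∩ Ioi k) (inter_subset_inter_left _ hX) (inf_inter_Ioi hXi k) ?_
        rw [← union_split]
        exact hi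
    refine ⟨k, hkX, fun Y hY hYi => ?_⟩
    simp only [mem_ofPred_eq, mem_iUnion]
    refine ⟨i, ?_⟩
    rw [← union_assoc]
    exact hpos Y hY hYi)
  exact ⟨B, hBA.trans hA'A, hB, dec_shift hd⟩

/-- The characteristic function. -/
noncomputable def ind (X : Set ℕ) : ℕ → Bool := by
  classical
  exact fun n => decide (n ∈ X)

theorem ind_eq_true {X : Set ℕ} {n : ℕ} : ind X n = true ↔ n ∈ X := by
  unfold ind
  simp

theorem ind_eq_false {X : Set ℕ} {n : ℕ} : ind X n = false ↔ n ∉ X := by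
  unfold ind
  simp

theorem setOf_ind (X : Set ℕ) : {n | ind X n = true} = X := by
  ext n
  exact ind_eq_true

theorem ind_setOf (x : ℕ → Bool) : ind {n | x n = true} = x := by
  funext n
  have h1 := @ind_eq_true {n | x n = true} n
  rw [mem_ofPred_eq] at h1
  cases hx : x n
  · rw [hx] at h1
    cases hi : ind {n | x n = true} n
    · rfl
    · exact absurd (h1.1 hi) (by simp)
  · exact h1.2 hx

/-- The family of sets of naturals coded by a set of binary sequences. -/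
def fam (U : Set (ℕ → Bool)) : Set (Set ℕ) := {X | ind X ∈ U}

theorem CR_of_isOpen {U : Set (ℕ → Bool)} (hU : IsOpen U) : CR (fam U) := by
  classical
  intro s A hA
  obtain ⟨B, hBA, hB, hd⟩ := dec_of_open {X | (s : Set ℕ) ∪ X ∈ fam U} A hA (by
    intro X hX hXi hXU
    have hXU' : ind ((s : Set ℕ) ∪ X) ∈ U := hXU
    obtain ⟨F, u, hF, hu⟩ := isOpen_pi_iff.1 hU _ hXU'
    obtain ⟨k, hkX, hk⟩ := exists_large hXi (F.sup id)
    refine ⟨k, hkX, fun Y hY hYi => ?_⟩
    show ind ((s : Set ℕ) ∪ ((X ∩ Iic k) ∪ Y)) ∈ U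
    apply hu
    intro i hi
    have hik : i ≤ k := (Finset.le_sup (f := id) hi).trans hk
    have heq : ind ((s : Set ℕ) ∪ ((X ∩ Iic k) ∪ Y)) i = ind ((s : Set ℕ) ∪ X) i := by
      have h1 : i ∈ (s : Set ℕ) ∪ ((X ∩ Iic k) ∪ Y) ↔ i ∈ (s : Set ℕ) ∪ X := by
        constructor
        · rintro (h | h | h)
          · exact Or.inl h
          · exact Or.inr h.1
          · exact absurd hik (not_le.2 (hY h).2)
        · rintro (h | h)
          · exact Or.inl h
          · exact Or.inr (Or.inl ⟨h, hik⟩)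
      rw [Bool.eq_iff_iff, ind_eq_true, ind_eq_true]
      exact h1
    rw [heq]
    exact (hF i hi).2)
  exact ⟨B, hBA, hB, dec_shift hd⟩

/-- **Galvin-Prikry**: Borel families are completely Ramsey. -/
theorem CR_of_borel {U : Set (ℕ → Bool)} (hU : @MeasurableSet (ℕ → Bool) (borel (ℕ → Bool)) U) :
    CR (fam U) := by
  have hU' : MeasurableSpace.GenerateMeasurable {s : Set (ℕ → Bool) | IsOpen s} U := hU
  induction hU' with
  | basic u hu => exact CR_of_isOpen hu
  | empty =>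
    intro s A hA
    exact ⟨A, Subset.rfl, hA, Or.inr fun X _ _ h => h⟩
  | compl t ht ih =>
    exact (ih ht).compl
  | iUnion f hf ih =>
    have h1 : fam (⋃ i, f i) = ⋃ i, fam (f i) := by
      ext X
      simp [fam]
    rw [h1]
    exact CR.iUnion fun i => ih i (hf i)

/-- The infinite sets at which `R` is good. -/
def goodSets (R : Set (Set ℕ)) : Set (Set ℕ) := {A | A.Infinite ∧ Good R A}

theorem goodSets_down {R : Set (Set ℕ)} {A B : Set ℕ} (hA : A ∈ goodSets R) (hB : B.Infinite)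
    (hBA : (B \ A).Finite) : B ∈ goodSets R := by
  obtain ⟨-, m, hm⟩ := hA
  obtain ⟨N, hN⟩ := hBA.bddAbove
  refine ⟨hB, max m (N + 1), fun k hk hmk s hs => ?_⟩
  have key : ∀ x ∈ B, k ≤ x → x ∈ A := by
    intro x hx hkx
    by_contra hxA
    have := hN ⟨hx, hxA⟩
    have h2 := (le_max_right m (N + 1)).trans hmk
    omega
  refine (hm k (key k hk le_rfl) ((le_max_left _ _).trans hmk) s hs).mono ?_
  intro x hx
  exact ⟨key x hx.1 (le_of_lt hx.2), hx.2⟩

theorem goodSets_dense {R : Set (Set ℕ)} (hR : CR R) {A : Set ℕ} (hA : A.Infinite) :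
    ∃ B ∈ goodSets R, B ⊆ A := by
  obtain ⟨B, hBA, hB, hg⟩ := exists_good (fun _ => R) (fun _ => hR) A hA
  exact ⟨B, ⟨hB, hg 0⟩, hBA⟩

end Pool.Agent.H60.AD
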