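import Pool.Agent.H60.AD.Defs
import Pool.Agent.H60.AD.Ramsey

/-!
Fewer than `𝔥` Borel sets never have a maximal almost disjoint union.
-/

namespace Pool.Agent.H60.AD

open Set

/-- Sequences of consecutive pairs. -/
theorem pairSeq (P : ℕ → ℕ → ℕ → Prop) (h : ∀ i v, ∃ a b, v < a ∧ a < b ∧ P i a b) :
    ∃ e : ℕ → ℕ, StrictMono e ∧ ∀ i, P i (e (2 * i)) (e (2 * i + 1)) := by
  choose f g hf hg hP using h
  let T : ℕ → ℕ := fun n => Nat.rec 0 (fun i v => g i v) n
  have hT : ∀ i, T (i + 1) = g i (T i) := fun i => rfl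
  let e : ℕ → ℕ := fun n => if n % 2 = 0 then f (n / 2) (T (n / 2)) else g (n / 2) (T (n / 2))
  have he0 : ∀ i, e (2 * i) = f i (T i) := by
    intro i
    have h1 : 2 * i % 2 = 0 := by omega
    have h2 : 2 * i / 2 = i := by omega
    show (if 2 * i % 2 = 0 then f (2 * i / 2) (T (2 * i / 2)) else _) = _
    rw [if_pos h1, h2]
  have he1 : ∀ i, e (2 * i + 1) = g i (T i) := by
    intro i
    have h1 : ¬ (2 * i + 1) % 2 = 0 := by omega
    have h2 : (2 * i + 1) / 2 = i := by omega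
    show (if (2 * i + 1) % 2 = 0 then _ else g ((2 * i + 1) / 2) (T ((2 * i + 1) / 2))) = _
    rw [if_neg h1, h2]
  refine ⟨e, strictMono_nat_of_lt_succ fun n => ?_, fun i => ?_⟩
  · obtain ⟨i, rfl | rfl⟩ := Nat.even_or_odd' n
    · rw [he0, he1]
      exact hg i (T i)
    · have h3 : 2 * i + 1 + 1 = 2 * (i + 1) := by ring
      rw [h3, he0, he1, ← hT]
      exact hf (i + 1) (T (i + 1))
  · rw [he0, he1]
    exact hP i (T i)

/-- `a < b` are consecutive elements of `z`, and `a` occurs at an even position. -/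
def EP (z : ℕ → Bool) (a b : ℕ) : Prop :=
  z a = true ∧ z b = true ∧ a < b ∧ (∀ c, a < c → c < b → z c = false) ∧
    Even ((Finset.range a).filter (fun i => z i = true)).card

theorem EP_iff {e : ℕ → ℕ} (he : StrictMono e) {z : ℕ → Bool}
    (hz : ∀ n, z n = true ↔ ∃ i, n = e i) (a b : ℕ) :
    EP z a b ↔ ∃ i, a = e (2 * i) ∧ b = e (2 * i + 1) := by
  have hcard : ∀ i, ((Finset.range (e i)).filter (fun n => z n = true)).card = i := by
    intro i
    have h1 : (Finset.range (e i)).filter (fun n => z n = true) = (Finset.range i).image e := by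
      ext n
      simp only [Finset.mem_filter, Finset.mem_range, Finset.mem_image, hz]
      constructor
      · rintro ⟨h, j, rfl⟩
        exact ⟨j, he.lt_iff_lt.1 h, rfl⟩
      · rintro ⟨j, h, rfl⟩
        exact ⟨he.lt_iff_lt.2 h, j, rfl⟩
    rw [h1, Finset.card_image_of_injective _ he.injective, Finset.card_range]
  constructor
  · rintro ⟨ha, hb, hab, hgap, hev⟩
    obtain ⟨i, rfl⟩ := (hz a).1 ha
    obtain ⟨j, rfl⟩ := (hz b).1 hb
    rw [hcard] at hev
    obtain ⟨l, rfl⟩ := hev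
    have hij : l + l < j := he.lt_iff_lt.1 hab
    have hj : j = l + l + 1 := by
      by_contra hne
      have h2 : l + l + 1 < j := by omega
      have h3 := hgap (e (l + l + 1)) (he (by omega)) (he h2)
      rw [(hz _).2 ⟨_, rfl⟩] at h3
      exact absurd h3 (by simp)
    refine ⟨l, ?_, ?_⟩
    · congr 1; omega
    · rw [hj]; congr 1; omega
  · rintro ⟨i, rfl, rfl⟩
    refine ⟨(hz _).2 ⟨_, rfl⟩, (hz _).2 ⟨_, rfl⟩, he (by omega), fun c h1 h2 => ?_, ?_⟩
    · by_contra hc
      rw [Bool.not_eq_false] at hc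
      obtain ⟨j, rfl⟩ := (hz c).1 hc
      have h3 := he.lt_iff_lt.1 h1
      have h4 := he.lt_iff_lt.1 h2
      omega
    · rw [hcard]
      exact even_two_mul i

/-- The family associated with a Borel set `B` and a transversal `p`. -/
def RB (p : ℕ → ℕ → ℕ) (B : Set (ℕ → Bool)) : Set (ℕ → Bool) :=
  {z | {n | z n = true}.Infinite ∧ ∃ x ∈ B, ∃ m : ℕ, ∀ a b, m ≤ a → EP z a b → x (p a b) = true}

theorem measurable_EP (a b : ℕ) : Measurable fun z : ℕ → Bool => EP z a b := by
  have hz : ∀ c, Measurable fun z : ℕ → Bool => z c = true := by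
    intro c
    rw [← measurableSet_setOfPred]
    have h1 : Measurable fun z : ℕ → Bool => z c := measurable_pi_apply c
    exact h1 (measurableSet_singleton true)
  have hz' : ∀ c, Measurable fun z : ℕ → Bool => z c = false := by
    intro c
    rw [← measurableSet_setOfPred]
    have h1 : Measurable fun z : ℕ → Bool => z c := measurable_pi_apply c
    exact h1 (measurableSet_singleton false)
  have hcard : Measurable fun z : ℕ → Bool =>
      ((Finset.range a).filter (fun i => z i = true)).card := by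
    simp only [Finset.card_filter]
    refine Finset.measurable_fun_sum _ fun i _ => ?_
    exact Measurable.ite (measurableSet_setOfPred.2 (hz i)) measurable_const measurable_const
  have hev : Measurable fun z : ℕ → Bool =>
      Even ((Finset.range a).filter (fun i => z i = true)).card := by
    rw [← measurableSet_setOfPred]
    exact hcard (MeasurableSet.of_discrete (s := {n : ℕ | Even n}))
  unfold EP
  refine (hz a).and ((hz b).and (measurable_const.and (Measurable.and ?_ hev)))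
  refine Measurable.forall fun c => ?_
  exact (measurable_const.imp (measurable_const.imp (hz' c)))

theorem infinite_iff (z : ℕ → Bool) :
    {n | z n = true}.Infinite ↔ ∀ n, ∃ m, n ≤ m ∧ z m = true := by
  constructor
  · intro h n
    obtain ⟨k, hk, hnk⟩ := exists_large h n
    exact ⟨k, hnk, hk⟩
  · intro h
    apply Set.infinite_of_forall_exists_gt
    intro n
    obtain ⟨m, hm, hz⟩ := h (n + 1)
    exact ⟨m, hz, hm⟩

/-- By the Lusin-Souslin theorem the associated family is Borel. -/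
theorem measurable_RB {p : ℕ → ℕ → ℕ} (hp : ∀ a b, b ≤ p a b) {B : Set (ℕ → Bool)}
    (hB : MeasurableSet B)
    (had : ∀ x ∈ B, ∀ y ∈ B, x ≠ y → ({n | x n = true} ∩ {n | y n = true}).Finite) :
    MeasurableSet (RB p B) := by
  let P : Set ((ℕ → Bool) × (ℕ → Bool)) :=
    {w | (∀ n, ∃ m, n ≤ m ∧ w.1 m = true) ∧ w.2 ∈ B ∧
      ∃ m : ℕ, ∀ a b, m ≤ a → EP w.1 a b → w.2 (p a b) = true}
  have hz : ∀ c, Measurable fun w : (ℕ → Bool) × (ℕ → Bool) => w.1 c = true := by
    intro c
    rw [← measurableSet_setOfPred]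
    have h1 : Measurable fun w : (ℕ → Bool) × (ℕ → Bool) => w.1 c :=
      (measurable_pi_apply c).comp measurable_fst
    exact h1 (measurableSet_singleton true)
  have hx : ∀ c, Measurable fun w : (ℕ → Bool) × (ℕ → Bool) => w.2 c = true := by
    intro c
    rw [← measurableSet_setOfPred]
    have h1 : Measurable fun w : (ℕ → Bool) × (ℕ → Bool) => w.2 c :=
      (measurable_pi_apply c).comp measurable_snd
    exact h1 (measurableSet_singleton true)
  have hP : MeasurableSet P := by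
    apply measurableSet_setOfPred.2
    refine Measurable.and ?_ (Measurable.and ?_ ?_)
    · exact Measurable.forall fun n => Measurable.exists fun m => measurable_const.and (hz m)
    · exact measurableSet_setOfPred.1 (measurable_snd hB)
    · refine Measurable.exists fun m => Measurable.forall fun a => Measurable.forall fun b => ?_
      refine measurable_const.imp (Measurable.imp ?_ (hx _))
      exact (measurable_EP a b).comp measurable_fst
  have hinj : InjOn Prod.fst P := by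
    rintro ⟨z, x⟩ ⟨hz1, hxB, m, hm⟩ ⟨z', y⟩ ⟨_, hyB, m', hm'⟩ hzz
    simp only at hzz hz1 hxB hyB hm hm'
    subst hzz
    by_contra hne
    have hxy : x ≠ y := fun h => hne (by rw [h])
    refine (had x hxB y hyB hxy).not_infinite ?_
    -- enumerate `z`
    have hinf : {n | z n = true}.Infinite := (infinite_iff z).2 hz1
    have hinf' := hinf.to_subtype
    classical
    let e := Nat.orderEmbeddingOfSet {n | z n = true}
    have hrange : ∀ n, z n = true ↔ ∃ i, n = e i := by
      intro n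
      have h1 := Nat.orderEmbeddingOfSet_range {n | z n = true}
      have h2 : n ∈ {n | z n = true} ↔ n ∈ Set.range e := by rw [h1]
      rw [show (z n = true) = (n ∈ {n | z n = true}) from rfl, h2]
      constructor
      · rintro ⟨i, hi⟩; exact ⟨i, hi.symm⟩
      · rintro ⟨i, hi⟩; exact ⟨i, hi.symm⟩
    apply Set.infinite_of_forall_exists_gt
    intro N
    set i := N + m + m' with hi
    have hge : ∀ j, j ≤ e j := fun j => e.strictMono.le_apply
    have hEP : EP z (e (2 * i)) (e (2 * i + 1)) :=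
      (EP_iff e.strictMono hrange _ _).2 ⟨i, rfl, rfl⟩
    have h1 := hge (2 * i)
    have h2 := hge (2 * i + 1)
    have h3 := hp (e (2 * i)) (e (2 * i + 1))
    exact ⟨p (e (2 * i)) (e (2 * i + 1)), ⟨hm _ _ (by omega) hEP, hm' _ _ (by omega) hEP⟩,
      by omega⟩
  have himg : RB p B = Prod.fst '' P := by
    ext z
    constructor
    · rintro ⟨h1, x, hx, hm⟩
      exact ⟨(z, x), ⟨(infinite_iff z).1 h1, hx, hm⟩, rfl⟩
    · rintro ⟨⟨z', x⟩, ⟨h1, hx, hm⟩, rfl⟩
      exact ⟨(infinite_iff _).2 h1, x, hx, hm⟩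
  rw [himg]
  exact hP.image_of_measurable_injOn measurable_fst hinj

/-- A transversal for an almost disjoint sequence. -/
theorem exists_transversal (A : ℕ → ℕ → Bool) (hinf : ∀ n, {k | A n k = true}.Infinite)
    (had : ∀ n m, n ≠ m → ({k | A n k = true} ∩ {k | A m k = true}).Finite) :
    ∃ p : ℕ → ℕ → ℕ, (∀ a b, b ≤ p a b) ∧ (∀ a b, A a (p a b) = true) ∧
      ∀ a b i, i < a → A i (p a b) = false := by
  have h : ∀ a b, ∃ n, b ≤ n ∧ A a n = true ∧ ∀ i, i < a → A i n = false := by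
    intro a b
    have hfin : (⋃ i ∈ Finset.range a, ({k | A i k = true} ∩ {k | A a k = true})).Finite := by
      apply Set.Finite.biUnion (Finset.finite_toSet _)
      intro i hi
      have hi' : i < a := by simpa using hi
      exact had i a (by omega)
    obtain ⟨n, hn, hbn⟩ := exists_large ((hinf a).sdiff hfin) b
    refine ⟨n, hbn, hn.1, fun i hi => ?_⟩
    by_contra hc
    rw [Bool.not_eq_false] at hc
    apply hn.2
    simp only [mem_iUnion]
    exact ⟨i, Finset.mem_range.2 hi, hc, hn.1⟩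
  choose p h1 h2 h3 using h
  exact ⟨p, h1, h2, fun a b i hi => h3 a b i hi⟩

/-- Every infinite set contains an infinite set all of whose consecutive pairs point into one
member of the family. -/
theorem exists_mem_R {𝒜 : Set (Set (ℕ → Bool))} (hmad : UnionMad 𝒜) {p : ℕ → ℕ → ℕ}
    (hp : ∀ a b, b ≤ p a b) {W : Set ℕ} (hW : W.Infinite) :
    ∃ e : ℕ → ℕ, StrictMono e ∧ (∀ i, e i ∈ W) ∧ ∃ B ∈ 𝒜, ∃ x ∈ B,
      ∀ i, x (p (e (2 * i)) (e (2 * i + 1))) = true := by
  obtain ⟨e, he, heW⟩ := pairSeq (fun _ a b => a ∈ W ∧ b ∈ W) (by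
    intro _ v
    obtain ⟨a, ha, hva⟩ := exists_large hW (v + 1)
    obtain ⟨b, hb, hab⟩ := exists_large hW (a + 1)
    exact ⟨a, b, by omega, by omega, ha, hb⟩)
  have hge : ∀ j, j ≤ e j := fun j => he.le_apply
  set Z : Set ℕ := {n | ∃ i, n = p (e (2 * i)) (e (2 * i + 1))} with hZ
  have hZi : {n | ind Z n = true}.Infinite := by
    rw [setOf_ind]
    apply Set.infinite_of_forall_exists_gt
    intro N
    refine ⟨_, ⟨N, rfl⟩, ?_⟩
    have h1 := hp (e (2 * N)) (e (2 * N + 1))
    have h2 := hge (2 * N + 1)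
    omega
  obtain ⟨x, ⟨B, hB, hxB⟩, hx⟩ := hmad.maximal (ind Z) hZi
  rw [setOf_ind] at hx
  obtain ⟨e', he', hP⟩ := pairSeq
    (fun _ a b => ∃ l, a = e (2 * l) ∧ b = e (2 * l + 1) ∧ x (p a b) = true) (by
      intro _ v
      have hfin : ((fun l => p (e (2 * l)) (e (2 * l + 1))) '' (Iic v)).Finite :=
        (finite_Iic v).image _
      obtain ⟨n, ⟨hn1, l, rfl⟩, hn2⟩ := (hx.sdiff hfin).nonempty
      have hl : v < l := by
        by_contra hc
        exact hn2 ⟨l, not_lt.1 hc, rfl⟩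
      refine ⟨e (2 * l), e (2 * l + 1), ?_, he (by omega), l, rfl, rfl, hn1⟩
      have := hge (2 * l)
      omega)
  refine ⟨e', he', ?_, B, hB, x, hxB, fun i => ?_⟩
  · intro i
    obtain ⟨j, rfl | rfl⟩ := Nat.even_or_odd' i
    · obtain ⟨l, h1, _, _⟩ := hP j
      rw [h1]; exact (heW l).1
    · obtain ⟨l, _, h2, _⟩ := hP j
      rw [h2]; exact (heW l).2
  · obtain ⟨l, _, _, h3⟩ := hP i
    exact h3

/-- The main argument: an infinite set that is almost homogeneous for all associated families is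
contradictory. -/
theorem false_of_homog {𝒜 : Set (Set (ℕ → Bool))} (hmad : UnionMad 𝒜) {A : ℕ → ℕ → Bool}
    (hA : ∀ n, A n ∈ ⋃₀ 𝒜) {p : ℕ → ℕ → ℕ} (hp : ∀ a b, b ≤ p a b)
    (hp1 : ∀ a b, A a (p a b) = true) (hp2 : ∀ a b i, i < a → A i (p a b) = false)
    {W : Set ℕ} (hW : W.Infinite) (hgood : ∀ B ∈ 𝒜, AlmostHomog (RB p B) W) : False := by
  classical
  obtain ⟨e, he, heW, B, hB, x, hx, hxe⟩ := exists_mem_R hmad hp hW
  have hrange : ∀ {f : ℕ → ℕ} (n : ℕ), ind (range f) n = true ↔ ∃ i, n = f i := by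
    intro f n
    rw [ind_eq_true]
    constructor
    · rintro ⟨i, hi⟩; exact ⟨i, hi.symm⟩
    · rintro ⟨i, hi⟩; exact ⟨i, hi.symm⟩
  obtain ⟨k, hk⟩ := hgood B hB
  -- a final part of `range e`
  have hmem : ind (range fun i => e (i + 2 * (k + 1))) ∈ RB p B := by
    have he' : StrictMono fun i => e (i + 2 * (k + 1)) := fun i j hij => he (by omega)
    refine ⟨?_, x, hx, 0, ?_⟩
    · rw [setOf_ind]
      exact Set.infinite_range_of_injective he'.injective
    · intro a b _ hab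
      obtain ⟨i, rfl, rfl⟩ := (EP_iff he' hrange a b).1 hab
      have h1 := hxe (i + (k + 1))
      have h2 : 2 * (i + (k + 1)) = 2 * i + 2 * (k + 1) := by ring
      have h3 : 2 * (i + (k + 1)) + 1 = 2 * i + 1 + 2 * (k + 1) := by ring
      rw [h3, h2] at h1
      exact h1
  have hpos : ∀ y : ℕ → Bool, {n | y n = true}.Infinite → {n | y n = true} ⊆ W ∩ Ioi k →
      y ∈ RB p B := by
    rcases hk with hk | hk
    · exact hk
    · exfalso
      refine hk _ ?_ ?_ hmem
      · rw [setOf_ind]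
        exact Set.infinite_range_of_injective fun i j hij => by
          have := he.injective hij
          omega
      · rw [setOf_ind]
        rintro _ ⟨i, rfl⟩
        refine ⟨heW _, ?_⟩
        have := he.le_apply (x := i + 2 * (k + 1))
        show k < e (i + 2 * (k + 1))
        omega
  -- for all pairs sequences in `W` above `k` there is a member of `B`
  have key : ∀ f : ℕ → ℕ, StrictMono f → (∀ i, f i ∈ W ∩ Ioi k) →
      ∃ y ∈ B, ∃ m' : ℕ, ∀ i, m' ≤ i → y (p (f (2 * i)) (f (2 * i + 1))) = true := by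
    intro f hf hfW
    have h1 := hpos (ind (range f)) (by
      rw [setOf_ind]
      exact Set.infinite_range_of_injective hf.injective) (by
      rw [setOf_ind]
      rintro _ ⟨i, rfl⟩
      exact hfW i)
    obtain ⟨_, y, hy, m', hm'⟩ := h1
    refine ⟨y, hy, m', fun i hi => ?_⟩
    have hge : 2 * i ≤ f (2 * i) := hf.le_apply
    exact hm' _ _ (by omega) ((EP_iff hf hrange _ _).2 ⟨i, rfl, rfl⟩)
  have hWk : (W ∩ Ioi k).Infinite := inf_inter_Ioi hW k
  have hUB : ∀ y ∈ B, y ∈ ⋃₀ 𝒜 := fun y hy => ⟨B, hB, hy⟩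
  -- a first sequence
  obtain ⟨f₀, hf₀, hf₀W⟩ := pairSeq (fun _ a b => a ∈ W ∩ Ioi k ∧ b ∈ W ∩ Ioi k) (by
    intro _ v
    obtain ⟨a, ha, hva⟩ := exists_large hWk (v + 1)
    obtain ⟨b, hb, hab⟩ := exists_large hWk (a + 1)
    exact ⟨a, b, by omega, by omega, ha, hb⟩)
  have hf₀W' : ∀ i, f₀ i ∈ W ∩ Ioi k := by
    intro i
    obtain ⟨j, rfl | rfl⟩ := Nat.even_or_odd' i
    · exact (hf₀W j).1
    · exact (hf₀W j).2
  obtain ⟨x₀, hx₀, m₀, hm₀⟩ := key f₀ hf₀ hf₀W'
  -- the member `x₀` misses `p a b` for large `a` and then large `b`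
  have hmiss : ∃ n₀ : ℕ, ∀ a, n₀ < a → ∃ c : ℕ, ∀ b, c ≤ b → x₀ (p a b) = false := by
    by_cases hex : ∃ n, A n = x₀
    · obtain ⟨n, rfl⟩ := hex
      exact ⟨n, fun a ha => ⟨0, fun b _ => hp2 a b n ha⟩⟩
    · push Not at hex
      refine ⟨0, fun a _ => ?_⟩
      obtain ⟨N, hN⟩ := (hmad.almost_disjoint (A a) (hA a) x₀ (hUB x₀ hx₀) (hex a)).bddAbove
      refine ⟨N + 1, fun b hb => ?_⟩
      by_contra hc
      rw [Bool.not_eq_false] at hc
      have h1 := hN ⟨hp1 a b, hc⟩
      have h2 := hp a b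
      omega
  obtain ⟨n₀, hn₀⟩ := hmiss
  -- the interleaved sequence
  obtain ⟨f, hf, hP⟩ := pairSeq (fun i a b =>
      (Even i → ∃ l, i ≤ l ∧ a = f₀ (2 * l) ∧ b = f₀ (2 * l + 1)) ∧
      (¬ Even i → a ∈ W ∩ Ioi k ∧ b ∈ W ∩ Ioi k ∧ x₀ (p a b) = false)) (by
    intro i v
    by_cases hi : Even i
    · refine ⟨f₀ (2 * (i + v + 1)), f₀ (2 * (i + v + 1) + 1), ?_, hf₀ (by omega),
        fun _ => ⟨i + v + 1, by omega, rfl, rfl⟩, fun h => absurd hi h⟩
      have := hf₀.le_apply (x := 2 * (i + v + 1))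
      omega
    · obtain ⟨a, ha, hva⟩ := exists_large hWk (v + n₀ + 1)
      obtain ⟨c, hc⟩ := hn₀ a (by omega)
      obtain ⟨b, hb, hab⟩ := exists_large hWk (a + c + 1)
      exact ⟨a, b, by omega, by omega, fun h => absurd h hi,
        fun _ => ⟨ha, hb, hc b (by omega)⟩⟩)
  have hfW : ∀ i, f i ∈ W ∩ Ioi k := by
    intro i
    obtain ⟨j, rfl | rfl⟩ := Nat.even_or_odd' i
    · by_cases hj : Even j
      · obtain ⟨l, _, h1, _⟩ := (hP j).1 hj
        rw [h1]; exact hf₀W' _
      · exact ((hP j).2 hj).1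
    · by_cases hj : Even j
      · obtain ⟨l, _, _, h1⟩ := (hP j).1 hj
        rw [h1]; exact hf₀W' _
      · exact ((hP j).2 hj).2.1
  obtain ⟨x₁, hx₁, m₁, hm₁⟩ := key f hf hfW
  have heq : x₁ = x₀ := by
    by_contra hne
    refine (hmad.almost_disjoint x₁ (hUB _ hx₁) x₀ (hUB _ hx₀) hne).not_infinite ?_
    apply Set.infinite_of_forall_exists_gt
    intro N
    set i := 2 * (N + m₀ + m₁) with hi
    have hev : Even i := even_two_mul _
    obtain ⟨l, hl, h1, h2⟩ := (hP i).1 hev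
    have h3 := hm₁ i (by omega)
    have h4 := hm₀ l (by omega)
    rw [← h1, ← h2] at h4
    refine ⟨_, ⟨h3, h4⟩, ?_⟩
    have h5 := hp (f (2 * i)) (f (2 * i + 1))
    have h6 := hf.le_apply (x := 2 * i + 1)
    omega
  have hodd : ¬ Even (2 * m₁ + 1) := by
    rw [Nat.not_even_iff_odd]
    exact odd_two_mul_add_one m₁
  have h1 := ((hP (2 * m₁ + 1)).2 hodd).2.2
  have h2 := hm₁ (2 * m₁ + 1) (by omega)
  rw [heq] at h2
  rw [h2] at h1
  exact absurd h1 (by simp)

open Cardinal in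
/-- Fewer than `𝔭𝔞𝔯_ω` Borel sets never have a mad union. -/
theorem parCard_le {𝒜 : Set (Set (ℕ → Bool))}
    (hB : ∀ A ∈ 𝒜, @MeasurableSet (ℕ → Bool) (borel (ℕ → Bool)) A) (hmad : UnionMad 𝒜) :
    ∃ 𝓡 : Set (Set (ℕ → Bool)), #𝓡 ≤ #𝒜 ∧
      (∀ R ∈ 𝓡, @MeasurableSet (ℕ → Bool) (borel (ℕ → Bool)) R) ∧
      ∀ W : Set ℕ, W.Infinite → ∃ R ∈ 𝓡, ¬ AlmostHomog R W := by
  -- a sequence of members
  let φ := hmad.infinite.natEmbedding
  let A : ℕ → ℕ → Bool := fun n => (φ n : ℕ → Bool)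
  have hA : ∀ n, A n ∈ ⋃₀ 𝒜 := fun n => (φ n).2
  have hAinj : ∀ n m, n ≠ m → A n ≠ A m := by
    intro n m hnm h
    exact hnm (φ.injective (Subtype.ext h))
  obtain ⟨p, hp, hp1, hp2⟩ := exists_transversal A (fun n => hmad.mem_infinite _ (hA n))
    (fun n m hnm => hmad.almost_disjoint _ (hA n) _ (hA m) (hAinj n m hnm))
  refine ⟨(fun B => RB p B) '' 𝒜, mk_image_le, ?_, ?_⟩
  · rintro _ ⟨B, hBA, rfl⟩
    have hmeq : borel (ℕ → Bool) = MeasurableSpace.pi := BorelSpace.measurable_eq.symm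
    have h1 := hB B hBA
    rw [hmeq] at h1 ⊢
    exact measurable_RB hp h1 fun x hx y hy hxy =>
      hmad.almost_disjoint x ⟨B, hBA, hx⟩ y ⟨B, hBA, hy⟩ hxy
  · intro W hW
    by_contra hcon
    push Not at hcon
    exact false_of_homog hmad hA hp hp1 hp2 hW fun B hBA => hcon _ ⟨B, hBA, rfl⟩

theorem almostHomog_of_borel {R : Set (ℕ → Bool)}
    (hR : @MeasurableSet (ℕ → Bool) (borel (ℕ → Bool)) R) :
    IsOpenDense {W | W.Infinite ∧ AlmostHomog R W} := by
  refine ⟨fun A hA => hA.1, ?_, ?_⟩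
  · rintro A ⟨_, m, hm⟩ B hB hBA
    obtain ⟨N, hN⟩ := hBA.bddAbove
    have hsub : B ∩ Ioi (max m N) ⊆ A ∩ Ioi m := by
      rintro x ⟨hxB, hx⟩
      rw [mem_Ioi, max_lt_iff] at hx
      refine ⟨?_, hx.1⟩
      by_contra hxA
      exact absurd (hN ⟨hxB, hxA⟩) (not_le.2 hx.2)
    refine ⟨hB, max m N, ?_⟩
    rcases hm with hm | hm
    · exact Or.inl fun x hx hxs => hm x hx (hxs.trans hsub)
    · exact Or.inr fun x hx hxs => hm x hx (hxs.trans hsub)
  · intro A hA
    obtain ⟨B, hBA, hB, hd⟩ := CR_of_borel hR ∅ A hA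
    refine ⟨B, ⟨hB, 0, ?_⟩, hBA⟩
    rcases hd with hd | hd
    · left
      intro x hx hxs
      have h1 := hd _ (hxs.trans inter_subset_left) hx
      rw [Finset.coe_empty, empty_union] at h1
      have h2 : ind {n | x n = true} ∈ R := h1
      rwa [ind_setOf] at h2
    · right
      intro x hx hxs h2
      refine hd _ (hxs.trans inter_subset_left) hx ?_
      rw [Finset.coe_empty, empty_union]
      show ind {n | x n = true} ∈ R
      rwa [ind_setOf]

open Cardinal in
/-- `𝔥` is at most the size of a family of Borel partitions without a common almost homogeneous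
set. -/
theorem hCard_le {𝓡 : Set (Set (ℕ → Bool))}
    (hB : ∀ R ∈ 𝓡, @MeasurableSet (ℕ → Bool) (borel (ℕ → Bool)) R)
    (hW : ∀ W : Set ℕ, W.Infinite → ∃ R ∈ 𝓡, ¬ AlmostHomog R W) (hne : 𝓡.Nonempty) :
    hCard ≤ #𝓡 := by
  let H : Set (Set (Set ℕ)) := (fun R => {W : Set ℕ | W.Infinite ∧ AlmostHomog R W}) '' 𝓡
  have hempty : ⋂₀ H = ∅ := by
    by_contra hcon
    obtain ⟨W, hWH⟩ := Set.nonempty_iff_ne_empty.2 hcon
    have hg : ∀ R ∈ 𝓡, W.Infinite ∧ AlmostHomog R W := fun R hR => hWH _ ⟨R, hR, rfl⟩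
    obtain ⟨R₀, hR₀⟩ := hne
    obtain ⟨R, hR, hnot⟩ := hW W (hg R₀ hR₀).1
    exact hnot (hg R hR).2
  calc hCard ≤ #H := csInf_le' ⟨H, rfl, by
        rintro _ ⟨R, hR, rfl⟩
        exact almostHomog_of_borel (hB R hR), hempty⟩
    _ ≤ #𝓡 := mk_image_le

end Pool.Agent.H60.AD
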