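import Pool.Agent.H60.AD.Ramsey
import Pool.Agent.H60.AD.Defs

/-!
The Ramsey theorem for trees that branch into a nonprincipal ultrafilter, and the resulting lower
bound for the Borel partition number.
-/

namespace Pool.Agent.H60.AD

open Set

/-- `X` is a branch above `s` of the tree whose successor sets are given by `A`. -/
def Br (A : Finset ℕ → Set ℕ) (s : Finset ℕ) (X : Set ℕ) : Prop :=
  X.Infinite ∧ ∀ x ∈ X, ∀ t : Finset ℕ, (t : Set ℕ) = (s : Set ℕ) ∪ (X ∩ Iio x) → x ∈ A t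

/-- Decision by a tree of the ultrafilter. -/
def UDec (U : Ultrafilter ℕ) (R : Set (Set ℕ)) (s : Finset ℕ) : Prop :=
  ∃ A : Finset ℕ → Set ℕ, (∀ t, A t ∈ U) ∧
    ((∀ X, Br A s X → (s : Set ℕ) ∪ X ∈ R) ∨ (∀ X, Br A s X → (s : Set ℕ) ∪ X ∉ R))

/-- Ramsey families for the ultrafilter. -/
def URam (U : Ultrafilter ℕ) (R : Set (Set ℕ)) : Prop := ∀ s, UDec U R s

theorem Br.tail {A : Finset ℕ → Set ℕ} {s : Finset ℕ} {X : Set ℕ} (h : Br A s X) {y : ℕ}
    {t₀ : Finset ℕ} (ht₀ : (t₀ : Set ℕ) = (s : Set ℕ) ∪ (X ∩ Iic y)) :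
    Br A t₀ (X ∩ Ioi y) := by
  refine ⟨inf_inter_Ioi h.1 y, fun x hx t ht => h.2 x hx.1 t ?_⟩
  rw [ht, ht₀]
  ext z
  simp only [mem_union, mem_inter_iff, mem_Iic, mem_Iio, mem_Ioi]
  have hyx : y < x := hx.2
  constructor
  · rintro ((h1 | ⟨h1, h2⟩) | ⟨⟨h1, _⟩, h3⟩)
    · exact Or.inl h1
    · exact Or.inr ⟨h1, lt_of_le_of_lt h2 hyx⟩
    · exact Or.inr ⟨h1, h3⟩
  · rintro (h1 | ⟨h1, h2⟩)
    · exact Or.inl (Or.inl h1)
    · rcases le_or_gt z y with h3 | h3
      · exact Or.inl (Or.inr ⟨h1, h3⟩)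
      · exact Or.inr ⟨⟨h1, h3⟩, h2⟩

theorem exists_finset (s : Finset ℕ) (X : Set ℕ) (y : ℕ) :
    ∃ t : Finset ℕ, (t : Set ℕ) = (s : Set ℕ) ∪ (X ∩ Iic y) := by
  have h : ((s : Set ℕ) ∪ (X ∩ Iic y)).Finite :=
    (Finset.finite_toSet s).union ((finite_Iic y).subset inter_subset_right)
  exact ⟨h.toFinset, h.coe_toFinset⟩

theorem exists_finset' (s : Finset ℕ) (X : Set ℕ) (y : ℕ) :
    ∃ t : Finset ℕ, (t : Set ℕ) = (s : Set ℕ) ∪ (X ∩ Iio y) := by
  have h : ((s : Set ℕ) ∪ (X ∩ Iio y)).Finite :=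
    (Finset.finite_toSet s).union ((finite_Iio y).subset inter_subset_right)
  exact ⟨h.toFinset, h.coe_toFinset⟩

theorem Ioi_mem {U : Ultrafilter ℕ} (hU : ∀ A : Set ℕ, A.Finite → A ∉ U) (k : ℕ) : Ioi k ∈ U := by
  have h1 := hU (Iic k) (finite_Iic k)
  rw [← Ultrafilter.compl_mem_iff_notMem] at h1
  have h2 : (Iic k)ᶜ = Ioi k := by ext x; simp
  rwa [h2] at h1

/-- The combinatorial forcing lemma for ultrafilter trees. -/
theorem udec_of_open {U : Ultrafilter ℕ} (hU : ∀ A : Set ℕ, A.Finite → A ∉ U)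
    (O : Set (Set ℕ)) (T : Finset ℕ → Set ℕ) (hT : ∀ t, T t ∈ U) (s₀ : Finset ℕ)
    (hopen : ∀ X, Br T s₀ X → (s₀ : Set ℕ) ∪ X ∈ O → ∃ y ∈ X, ∀ t₀ : Finset ℕ,
      (t₀ : Set ℕ) = (s₀ : Set ℕ) ∪ (X ∩ Iic y) →
      ∃ A : Finset ℕ → Set ℕ, (∀ t, A t ∈ U) ∧ ∀ Y, Br A t₀ Y → (t₀ : Set ℕ) ∪ Y ∈ O) :
    UDec U O s₀ := by
  classical
  let G : Finset ℕ → Prop := fun s =>
    ∃ A : Finset ℕ → Set ℕ, (∀ t, A t ∈ U) ∧ ∀ Y, Br A s Y → (s : Set ℕ) ∪ Y ∈ O
  have hstep : ∀ s, ¬ G s → {n | ¬ G (insert n s)} ∈ U := by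
    intro s hs
    by_contra hcon
    have h1 : {n | G (insert n s)} ∈ U := by
      rw [← Ultrafilter.compl_mem_iff_notMem] at hcon
      have h2 : {n | ¬ G (insert n s)}ᶜ = {n | G (insert n s)} := by
        ext n; simp
      rwa [h2] at hcon
    apply hs
    have h3 : ∀ n, ∃ A : Finset ℕ → Set ℕ, (∀ t, A t ∈ U) ∧ (G (insert n s) →
        ∀ Y, Br A (insert n s) Y → ((insert n s : Finset ℕ) : Set ℕ) ∪ Y ∈ O) := by
      intro n
      by_cases hn : G (insert n s)
      · obtain ⟨A, hA, hY⟩ := hn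
        exact ⟨A, hA, fun _ => hY⟩
      · exact ⟨fun _ => univ, fun _ => Filter.univ_mem, fun h => absurd h hn⟩
    choose A hA hAY using h3
    refine ⟨fun t => if t = s then {n | G (insert n s)} ∩ Ioi (s.sup id)
      else ⋂ n ∈ t, A n t, ?_, ?_⟩
    · intro t
      show (if t = s then {n | G (insert n s)} ∩ Ioi (s.sup id) else ⋂ n ∈ t, A n t) ∈ U
      split_ifs
      · exact Filter.inter_mem h1 (Ioi_mem hU _)
      · exact (Filter.biInter_finset_mem t).2 fun n _ => hA n t
    · intro Y hY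
      obtain ⟨n, hn, hmin⟩ : ∃ n ∈ Y, ∀ m ∈ Y, n ≤ m :=
        ⟨sInf Y, Nat.sInf_mem hY.1.nonempty, fun m hm => Nat.sInf_le hm⟩
      have h4 := hY.2 n hn s (by
        ext z
        simp only [mem_union, mem_inter_iff, mem_Iio]
        constructor
        · exact fun h => Or.inl h
        · rintro (h | ⟨h5, h6⟩)
          · exact h
          · exact absurd (hmin z h5) (not_le.2 h6))
      beta_reduce at h4
      rw [if_pos rfl] at h4
      have hns : n ∉ s := fun h => by
        have := Finset.le_sup (f := id) h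
        exact absurd h4.2 (not_lt.2 this)
      have h5 : Br (A n) (insert n s) (Y ∩ Ioi n) := by
        refine ⟨inf_inter_Ioi hY.1 n, fun x hx t ht => ?_⟩
        have hnx : n < x := hx.2
        have h6 : (t : Set ℕ) = (s : Set ℕ) ∪ (Y ∩ Iio x) := by
          rw [ht]
          ext z
          simp only [Finset.coe_insert, mem_union, mem_insert_iff, Finset.mem_coe, mem_inter_iff,
            mem_Ioi, mem_Iio]
          constructor
          · rintro ((rfl | h) | ⟨⟨h, _⟩, h'⟩)
            · exact Or.inr ⟨hn, hnx⟩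
            · exact Or.inl h
            · exact Or.inr ⟨h, h'⟩
          · rintro (h | ⟨h, h'⟩)
            · exact Or.inl (Or.inr h)
            · rcases (hmin z h).eq_or_lt with h7 | h7
              · exact Or.inl (Or.inl h7.symm)
              · exact Or.inr ⟨⟨h, h7⟩, h'⟩
        have hnt : n ∈ t := by
          rw [← Finset.mem_coe, h6]
          exact Or.inr ⟨hn, hnx⟩
        have hts : t ≠ s := fun h => hns (h ▸ hnt)
        have h7 := hY.2 x hx.1 t h6
        beta_reduce at h7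
        rw [if_neg hts] at h7
        exact mem_iInter₂.1 h7 n hnt
      have h8 := hAY n h4.1 _ h5
      have h9 : ((insert n s : Finset ℕ) : Set ℕ) ∪ (Y ∩ Ioi n) = (s : Set ℕ) ∪ Y := by
        ext z
        simp only [Finset.coe_insert, mem_union, mem_insert_iff, Finset.mem_coe, mem_inter_iff,
          mem_Ioi]
        constructor
        · rintro ((rfl | h) | ⟨h, _⟩)
          · exact Or.inr hn
          · exact Or.inl h
          · exact Or.inr h
        · rintro (h | h)
          · exact Or.inl (Or.inr h)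
          · rcases (hmin z h).eq_or_lt with h7 | h7
            · exact Or.inl (Or.inl h7.symm)
            · exact Or.inr ⟨h, h7⟩
      rwa [h9] at h8
  by_cases hG : G s₀
  · obtain ⟨A, hA, hY⟩ := hG
    exact ⟨A, hA, Or.inl hY⟩
  refine ⟨fun t => if G t then T t else T t ∩ {n | ¬ G (insert n t)}, ?_, Or.inr ?_⟩
  · intro t
    show (if G t then T t else T t ∩ {n | ¬ G (insert n t)}) ∈ U
    split_ifs with h
    · exact hT t
    · exact Filter.inter_mem (hT t) (hstep t h)
  · intro X hX hXO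
    have hXT : Br T s₀ X := by
      refine ⟨hX.1, fun x hx t ht => ?_⟩
      have h1 := hX.2 x hx t ht
      beta_reduce at h1
      by_cases h : G t
      · rwa [if_pos h] at h1
      · rw [if_neg h] at h1
        exact h1.1
    have hnot : ∀ y : ℕ, ∀ t : Finset ℕ, (t : Set ℕ) = (s₀ : Set ℕ) ∪ (X ∩ Iio y) → ¬ G t := by
      intro y
      induction y with
      | zero =>
        intro t ht
        have : t = s₀ := by
          rw [← Finset.coe_inj, ht]
          ext z; simp
        rw [this]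
        exact hG
      | succ y ih =>
        intro t ht
        obtain ⟨t', ht'⟩ := exists_finset' s₀ X y
        have h1 := ih t' ht'
        by_cases hy : y ∈ X
        · have h2 := hX.2 y hy t' ht'
          beta_reduce at h2
          rw [if_neg h1] at h2
          have h3 : insert y t' = t := by
            rw [← Finset.coe_inj, ht, Finset.coe_insert, ht']
            ext z
            simp only [mem_insert_iff, mem_union, Finset.mem_coe, mem_inter_iff, mem_Iio]
            constructor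
            · rintro (rfl | h | ⟨h, h'⟩)
              · exact Or.inr ⟨hy, Nat.lt_succ_self _⟩
              · exact Or.inl h
              · exact Or.inr ⟨h, Nat.lt_succ_of_lt h'⟩
            · rintro (h | ⟨h, h'⟩)
              · exact Or.inr (Or.inl h)
              · rcases Nat.lt_succ_iff_lt_or_eq.1 h' with h'' | h''
                · exact Or.inr (Or.inr ⟨h, h''⟩)
                · exact Or.inl h''
          rw [← h3]
          exact h2.2
        · have h3 : t = t' := by
            rw [← Finset.coe_inj, ht, ht']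
            ext z
            simp only [mem_union, Finset.mem_coe, mem_inter_iff, mem_Iio]
            constructor
            · rintro (h | ⟨h, h'⟩)
              · exact Or.inl h
              · rcases Nat.lt_succ_iff_lt_or_eq.1 h' with h'' | h''
                · exact Or.inr ⟨h, h''⟩
                · exact absurd (h'' ▸ h) hy
            · rintro (h | ⟨h, h'⟩)
              · exact Or.inl h
              · exact Or.inr ⟨h, Nat.lt_succ_of_lt h'⟩
          rw [h3]
          exact h1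
    obtain ⟨y, hy, hyG⟩ := hopen X hXT hXO
    obtain ⟨t₀, ht₀⟩ := exists_finset s₀ X y
    refine hnot (y + 1) t₀ ?_ (hyG t₀ ht₀)
    rw [ht₀]
    ext z
    simp only [mem_union, mem_inter_iff, mem_Iic, mem_Iio, Nat.lt_succ_iff]

theorem URam.compl {U : Ultrafilter ℕ} {R : Set (Set ℕ)} (h : URam U R) : URam U Rᶜ := by
  intro s
  obtain ⟨A, hA, hd⟩ := h s
  refine ⟨A, hA, ?_⟩
  rcases hd with hd | hd
  · exact Or.inr fun X hX hc => hc (hd X hX)
  · exact Or.inl fun X hX => hd X hX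

theorem URam_of_isOpen {U : Ultrafilter ℕ} (hU : ∀ A : Set ℕ, A.Finite → A ∉ U)
    {V : Set (ℕ → Bool)} (hV : IsOpen V) : URam U (fam V) := by
  intro s
  refine udec_of_open hU _ (fun _ => univ) (fun _ => Filter.univ_mem) s ?_
  intro X hX hXV
  have hXV' : ind ((s : Set ℕ) ∪ X) ∈ V := hXV
  obtain ⟨F, u, hF, hu⟩ := isOpen_pi_iff.1 hV _ hXV'
  obtain ⟨y, hy, hFy⟩ := exists_large hX.1 (F.sup id)
  refine ⟨y, hy, fun t₀ ht₀ => ⟨fun _ => Ioi y, fun _ => Ioi_mem hU y, fun Y hY => ?_⟩⟩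
  have hYy : ∀ z ∈ Y, y < z := by
    intro z hz
    obtain ⟨t, ht⟩ := exists_finset' t₀ Y z
    exact hY.2 z hz t ht
  show ind ((t₀ : Set ℕ) ∪ Y) ∈ V
  apply hu
  intro i hi
  have hiy : i ≤ y := (Finset.le_sup (f := id) hi).trans hFy
  have heq : ind ((t₀ : Set ℕ) ∪ Y) i = ind ((s : Set ℕ) ∪ X) i := by
    rw [Bool.eq_iff_iff, ind_eq_true, ind_eq_true, ht₀]
    constructor
    · rintro ((h | h) | h)
      · exact Or.inl h
      · exact Or.inr h.1
      · exact absurd hiy (not_le.2 (hYy i h))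
    · rintro (h | h)
      · exact Or.inl (Or.inl h)
      · exact Or.inl (Or.inr ⟨h, hiy⟩)
  rw [heq]
  exact (hF i hi).2

theorem URam.iUnion {U : Ultrafilter ℕ} (hU : ∀ A : Set ℕ, A.Finite → A ∉ U)
    {R : ℕ → Set (Set ℕ)} (h : ∀ i, URam U (R i)) : URam U (⋃ i, R i) := by
  classical
  intro s₀
  choose A hA hd using h
  refine udec_of_open hU _ (fun t => ⋂ x ∈ Finset.range (t.card + 1) ×ˢ t.powerset,
    A x.1 x.2 t) (fun t => (Filter.biInter_finset_mem _).2 fun x _ => hA x.1 x.2 t) s₀ ?_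
  intro X hX hXR
  obtain ⟨i, hi⟩ := mem_iUnion.1 hXR
  -- a long initial segment
  obtain ⟨F, hFX, hFc⟩ := hX.1.exists_subset_card_eq i
  obtain ⟨y, hy, hFy⟩ := exists_large hX.1 (F.sup id)
  refine ⟨y, hy, fun t₀ ht₀ => ⟨A i t₀, hA i t₀, ?_⟩⟩
  have hcard : i ≤ t₀.card := by
    rw [← hFc]
    apply Finset.card_le_card
    intro z hz
    rw [← Finset.mem_coe, ht₀]
    exact Or.inr ⟨hFX hz, (Finset.le_sup (f := id) hz).trans hFy⟩
  have hbr : Br (A i t₀) t₀ (X ∩ Ioi y) := by
    have h1 := hX.tail ht₀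
    refine ⟨h1.1, fun x hx t ht => ?_⟩
    have h2 := h1.2 x hx t ht
    have hsub : t₀ ⊆ t := by
      intro z hz
      rw [← Finset.mem_coe, ht]
      exact Or.inl hz
    refine mem_iInter₂.1 h2 (i, t₀) ?_
    simp only [Finset.mem_product, Finset.mem_range, Finset.mem_powerset]
    exact ⟨Nat.lt_succ_of_le (hcard.trans (Finset.card_le_card hsub)), hsub⟩
  have hsplit : (t₀ : Set ℕ) ∪ (X ∩ Ioi y) = (s₀ : Set ℕ) ∪ X := by
    rw [ht₀, ← union_split]
  intro Y hY
  rcases hd i t₀ with hdd | hdd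
  · exact mem_iUnion.2 ⟨i, hdd Y hY⟩
  · exact absurd (hsplit ▸ hi) (hdd _ hbr)

/-- Borel families are Ramsey for every nonprincipal ultrafilter. -/
theorem URam_of_borel {U : Ultrafilter ℕ} (hU : ∀ A : Set ℕ, A.Finite → A ∉ U)
    {V : Set (ℕ → Bool)} (hV : @MeasurableSet (ℕ → Bool) (borel (ℕ → Bool)) V) :
    URam U (fam V) := by
  have hV' : MeasurableSpace.GenerateMeasurable {s : Set (ℕ → Bool) | IsOpen s} V := hV
  induction hV' with
  | basic u hu => exact URam_of_isOpen hU hu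
  | empty =>
    intro s
    exact ⟨fun _ => univ, fun _ => Filter.univ_mem, Or.inr fun X _ h => h⟩
  | compl t ht ih => exact (ih ht).compl
  | iUnion f hf ih =>
    have h1 : fam (⋃ i, f i) = ⋃ i, fam (f i) := by
      ext X
      simp [fam]
    rw [h1]
    exact URam.iUnion hU fun i => ih i (hf i)

end Pool.Agent.H60.AD
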