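import Pool.Agent.H60.AD.Defs
import Pool.Agent.H60.AD.Ramsey

/-!
Existence of mad families and the upper bounds for `𝔞_closed`.
-/

namespace Pool.Agent.H60.AD

open Set Cardinal

theorem UnionMad.congr {𝒜 ℬ : Set (Set (ℕ → Bool))} (h : UnionMad 𝒜) (heq : ⋃₀ ℬ = ⋃₀ 𝒜) :
    UnionMad ℬ := by
  refine ⟨?_, ?_, ?_, ?_⟩
  · rw [heq]; exact h.infinite
  · rw [heq]; exact h.mem_infinite
  · rw [heq]; exact h.almost_disjoint
  · rw [heq]; exact h.maximal

theorem polish : PolishSpace (ℕ → Bool) := by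
  have h : TopologicalSpace.IsCompletelyMetrizableSpace (ℕ → Bool) := inferInstance
  constructor

theorem exists_mad : ∃ M : Set (ℕ → Bool), UnionMad {M} := by
  classical
  let S : Set (Set (ℕ → Bool)) := {M | (∀ x ∈ M, {n | x n = true}.Infinite) ∧
    ∀ x ∈ M, ∀ y ∈ M, x ≠ y → ({n | x n = true} ∩ {n | y n = true}).Finite}
  let col : ℕ → Set ℕ := fun n => {m | (Nat.unpair m).1 = n}
  have hcol : ∀ n, (col n).Infinite := by
    intro n
    apply Set.infinite_of_forall_exists_gt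
    intro N
    refine ⟨Nat.pair n (N + 1), ?_, ?_⟩
    · show (Nat.unpair (Nat.pair n (N + 1))).1 = n
      rw [Nat.unpair_pair]
    · have := Nat.right_le_pair n (N + 1)
      omega
  let M₀ : Set (ℕ → Bool) := range fun n => ind (col n)
  have hM₀ : M₀ ∈ S := by
    constructor
    · rintro _ ⟨n, rfl⟩
      rw [setOf_ind]
      exact hcol n
    · rintro _ ⟨n, rfl⟩ _ ⟨m, rfl⟩ hnm
      rw [setOf_ind, setOf_ind]
      have hne : n ≠ m := fun h => hnm (by rw [h])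
      convert Set.finite_empty
      ext k
      simp only [mem_inter_iff, mem_empty_iff_false, iff_false, not_and]
      intro h1 h2
      exact hne (h1.symm.trans h2)
  obtain ⟨M, hM₀M, hM⟩ := zorn_subset_nonempty S (by
    intro c hcS hc hcne
    refine ⟨⋃₀ c, ⟨?_, ?_⟩, fun s hs => subset_sUnion_of_mem hs⟩
    · rintro x ⟨s, hs, hx⟩
      exact (hcS hs).1 x hx
    · rintro x ⟨s, hs, hx⟩ y ⟨t, ht, hy⟩ hxy
      rcases hc.total hs ht with h | h
      · exact (hcS ht).2 x (h hx) y hy hxy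
      · exact (hcS hs).2 x hx y (h hy) hxy) M₀ hM₀
  have hMS : M ∈ S := hM.prop
  refine ⟨M, ⟨?_, ?_, ?_, ?_⟩⟩
  · rw [sUnion_singleton]
    refine (Set.infinite_range_of_injective ?_).mono hM₀M
    intro n m hnm
    have h1 : col n = col m := by
      have := congrArg (fun z : ℕ → Bool => {k | z k = true}) hnm
      simpa only [setOf_ind] using this
    obtain ⟨k, hk⟩ := (hcol n).nonempty
    have hk' : k ∈ col m := h1 ▸ hk
    exact hk.symm.trans hk'
  · rw [sUnion_singleton]; exact hMS.1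
  · rw [sUnion_singleton]; exact hMS.2
  · rw [sUnion_singleton]
    intro z hz
    by_contra hcon
    push Not at hcon
    have hfin : ∀ x ∈ M, ({n | x n = true} ∩ {n | z n = true}).Finite := hcon
    have hins : insert z M ∈ S := by
      constructor
      · rintro x (rfl | hx)
        · exact hz
        · exact hMS.1 x hx
      · rintro x (rfl | hx) y (rfl | hy) hxy
        · exact absurd rfl hxy
        · rw [inter_comm]; exact hfin y hy
        · exact hfin x hx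
        · exact hMS.2 x hx y hy hxy
    have hzM : z ∈ M := hM.le_of_ge hins (subset_insert z M) (mem_insert z M)
    have := hfin z hzM
    rw [inter_self] at this
    exact hz this

/-- The set of cardinals defining `𝔞_closed` contains the one defining `𝔞`. -/
theorem closed_of_mad {M : Set (ℕ → Bool)} (hM : UnionMad {M}) :
    ∃ 𝒜 : Set (Set (ℕ → Bool)), #𝒜 = #M ∧
      (∀ A ∈ 𝒜, ∃ C : Set (ℕ → Bool), IsClosed C ∧ A = C ∩ {x | {n | x n = true}.Infinite}) ∧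
      UnionMad 𝒜 := by
  refine ⟨(fun x => {x}) '' M, ?_, ?_, ?_⟩
  · exact mk_image_eq singleton_injective
  · rintro _ ⟨x, hx, rfl⟩
    refine ⟨{x}, isClosed_singleton, ?_⟩
    symm
    rw [inter_eq_left]
    intro y hy
    rw [mem_singleton_iff.1 hy]
    exact hM.mem_infinite x ⟨M, rfl, hx⟩
  · apply hM.congr
    rw [sUnion_singleton]
    ext x
    simp

theorem closed_nonempty : {κ : Cardinal.{0} | ∃ 𝒜 : Set (Set (ℕ → Bool)), #𝒜 = κ ∧
    (∀ A ∈ 𝒜, ∃ C : Set (ℕ → Bool), IsClosed C ∧ A = C ∩ {x | {n | x n = true}.Infinite}) ∧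
    UnionMad 𝒜}.Nonempty := by
  obtain ⟨M, hM⟩ := exists_mad
  obtain ⟨𝒜, h⟩ := closed_of_mad hM
  exact ⟨#M, 𝒜, h⟩

theorem measurableSet_infinite :
    @MeasurableSet (ℕ → Bool) (borel (ℕ → Bool)) {x | {n | x n = true}.Infinite} := by
  have h1 : {x : ℕ → Bool | {n | x n = true}.Infinite} =
      ⋂ n : ℕ, ⋃ m : ℕ, ⋃ (_ : n ≤ m), {x : ℕ → Bool | x m = true} := by
    ext x
    simp only [mem_ofPred_eq, mem_iInter, mem_iUnion, exists_prop]
    constructor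
    · intro h n
      obtain ⟨k, hk, hnk⟩ := exists_large h n
      exact ⟨k, hnk, hk⟩
    · intro h
      apply Set.infinite_of_forall_exists_gt
      intro n
      obtain ⟨m, hm, hz⟩ := h (n + 1)
      exact ⟨m, hz, hm⟩
  rw [h1]
  let _ : MeasurableSpace (ℕ → Bool) := borel (ℕ → Bool)
  have _ : BorelSpace (ℕ → Bool) := ⟨rfl⟩
  refine MeasurableSet.iInter fun n => MeasurableSet.iUnion fun m => MeasurableSet.iUnion fun _ => ?_
  apply IsOpen.measurableSet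
  have : {x : ℕ → Bool | x m = true} = (fun x : ℕ → Bool => x m) ⁻¹' {true} := rfl
  rw [this]
  exact (isOpen_discrete _).preimage (continuous_apply m)

theorem aBorel_le_aClosed : aBorel ≤ aClosed := by
  refine csInf_le_csInf (OrderBot.bddBelow _) closed_nonempty ?_
  rintro κ ⟨𝒜, hκ, hA, hmad⟩
  refine ⟨𝒜, hκ, fun A hA' => ?_, hmad⟩
  obtain ⟨C, hC, rfl⟩ := hA A hA'
  refine @MeasurableSet.inter _ (borel (ℕ → Bool)) _ _ ?_ measurableSet_infinite
  let _ : MeasurableSpace (ℕ → Bool) := borel (ℕ → Bool)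
  have _ : BorelSpace (ℕ → Bool) := ⟨rfl⟩
  exact hC.measurableSet

theorem aClosed_le_aCard : aClosed ≤ aCard := by
  obtain ⟨M₀, hM₀⟩ := exists_mad
  refine le_csInf ⟨#M₀, M₀, rfl, hM₀⟩ ?_
  rintro κ ⟨M, rfl, hM⟩
  obtain ⟨𝒜, h1, h2⟩ := closed_of_mad hM
  exact csInf_le' ⟨𝒜, h1, h2⟩

theorem borel_nonempty : {κ : Cardinal.{0} | ∃ 𝒜 : Set (Set (ℕ → Bool)), #𝒜 = κ ∧
    (∀ A ∈ 𝒜, @MeasurableSet (ℕ → Bool) (borel (ℕ → Bool)) A) ∧ UnionMad 𝒜}.Nonempty := by
  obtain ⟨M, hM⟩ := exists_mad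
  obtain ⟨𝒜, h1, h2, h3⟩ := closed_of_mad hM
  refine ⟨#M, 𝒜, h1, fun A hA' => ?_, h3⟩
  obtain ⟨C, hC, rfl⟩ := h2 A hA'
  refine @MeasurableSet.inter _ (borel (ℕ → Bool)) _ _ ?_ measurableSet_infinite
  let _ : MeasurableSpace (ℕ → Bool) := borel (ℕ → Bool)
  have _ : BorelSpace (ℕ → Bool) := ⟨rfl⟩
  exact hC.measurableSet

theorem dCard_attained : ∃ F : Set (ℕ → ℕ), #F = dCard ∧
    ∀ g : ℕ → ℕ, ∃ f ∈ F, ∃ m : ℕ, ∀ n, m ≤ n → g n ≤ f n := by
  have hne : {κ : Cardinal.{0} | ∃ F : Set (ℕ → ℕ), #F = κ ∧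
      ∀ g : ℕ → ℕ, ∃ f ∈ F, ∃ m : ℕ, ∀ n, m ≤ n → g n ≤ f n}.Nonempty :=
    ⟨#(univ : Set (ℕ → ℕ)), univ, rfl, fun g => ⟨g, mem_univ g, 0, fun n _ => le_rfl⟩⟩
  exact csInf_mem hne

theorem aleph0_le_of_dominating {F : Set (ℕ → ℕ)}
    (hF : ∀ g : ℕ → ℕ, ∃ f ∈ F, ∃ m : ℕ, ∀ n, m ≤ n → g n ≤ f n) : ℵ₀ ≤ #F := by
  rw [← not_lt, lt_aleph0_iff_set_finite]
  intro hfin
  obtain ⟨f, hf, m, hm⟩ := hF fun n => (∑ f ∈ hfin.toFinset, f n) + 1
  have h1 : f m ≤ ∑ f ∈ hfin.toFinset, f m :=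
    Finset.single_le_sum (f := fun f : ℕ → ℕ => f m) (fun _ _ => Nat.zero_le _)
      (hfin.mem_toFinset.2 hf)
  have h2 := hm m le_rfl
  omega

/-- Every Borel set is the union of `𝔡` compact sets, whence `𝔞_closed ≤ max 𝔞_Borel 𝔡`. -/
theorem aClosed_le_max : aClosed ≤ max aBorel dCard := by
  classical
  obtain ⟨𝒜, hcard, hB, hmad⟩ := csInf_mem borel_nonempty
  change #𝒜 = aBorel at hcard
  obtain ⟨F, hFcard, hF⟩ := dCard_attained
  have hpar : ∀ A : 𝒜, (A : Set (ℕ → Bool)) = ∅ ∨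
      ∃ f : (ℕ → ℕ) → (ℕ → Bool), Continuous f ∧ range f = (A : Set (ℕ → Bool)) := by
    intro A
    let _ : MeasurableSpace (ℕ → Bool) := borel (ℕ → Bool)
    have _ : BorelSpace (ℕ → Bool) := ⟨rfl⟩
    have _ : PolishSpace (ℕ → Bool) := polish
    have h1 : MeasurableSet (A : Set (ℕ → Bool)) := hB A A.2
    have h2 := h1.analyticSet
    rw [MeasureTheory.AnalyticSet] at h2
    exact h2
  have hpar' : ∀ A : 𝒜, ∃ f : (ℕ → ℕ) → (ℕ → Bool), (A : Set (ℕ → Bool)).Nonempty →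
      Continuous f ∧ range f = (A : Set (ℕ → Bool)) := by
    intro A
    rcases hpar A with h | ⟨f, hf⟩
    · exact ⟨fun _ _ => true, fun hne => absurd h hne.ne_empty⟩
    · exact ⟨f, fun _ => hf⟩
  choose f hf using hpar'
  let box : (ℕ → ℕ) → ℕ → Set (ℕ → ℕ) := fun g k => Set.pi univ fun n => Iic (max (g n) k)
  have hbox : ∀ g k, IsCompact (box g k) := fun g k =>
    isCompact_univ_pi fun n => (finite_Iic _).isCompact
  let Φ : 𝒜 × F × ℕ → Set (ℕ → Bool) := fun w =>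
    if (w.1 : Set (ℕ → Bool)).Nonempty then f w.1 '' box (w.2.1 : ℕ → ℕ) w.2.2 else ∅
  have hΦsub : ∀ w, Φ w ⊆ (w.1 : Set (ℕ → Bool)) := by
    intro w
    by_cases h : (w.1 : Set (ℕ → Bool)).Nonempty
    · simp only [Φ, if_pos h]
      rintro _ ⟨y, _, rfl⟩
      have := (hf w.1 h).2
      rw [← this]
      exact mem_range_self y
    · simp only [Φ, if_neg h]
      exact empty_subset _
  have hΦcl : ∀ w, IsClosed (Φ w) := by
    intro w
    by_cases h : (w.1 : Set (ℕ → Bool)).Nonempty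
    · simp only [Φ, if_pos h]
      exact ((hbox _ _).image (hf w.1 h).1).isClosed
    · simp only [Φ, if_neg h]
      exact isClosed_empty
  have hU : ⋃₀ (range Φ) = ⋃₀ 𝒜 := by
    apply Subset.antisymm
    · rintro x ⟨_, ⟨w, rfl⟩, hx⟩
      exact ⟨w.1, w.1.2, hΦsub w hx⟩
    · rintro x ⟨A, hA, hx⟩
      have hne : A.Nonempty := ⟨x, hx⟩
      have h1 := (hf ⟨A, hA⟩ hne).2
      have hx' : x ∈ range (f ⟨A, hA⟩) := by rw [h1]; exact hx
      obtain ⟨y, rfl⟩ := hx'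
      obtain ⟨g, hg, m, hm⟩ := hF y
      refine ⟨Φ (⟨A, hA⟩, ⟨g, hg⟩, (Finset.range m).sup y), mem_range_self _, ?_⟩
      simp only [Φ]
      rw [if_pos hne]
      refine ⟨y, ?_, rfl⟩
      intro n _
      show y n ≤ max (g n) ((Finset.range m).sup y)
      rcases le_or_gt m n with h | h
      · exact (hm n h).trans (le_max_left _ _)
      · exact (Finset.le_sup (f := y) (Finset.mem_range.2 h)).trans (le_max_right _ _)
  have hmem : #(range Φ) ∈ {κ : Cardinal.{0} | ∃ 𝒜 : Set (Set (ℕ → Bool)), #𝒜 = κ ∧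
      (∀ A ∈ 𝒜, ∃ C : Set (ℕ → Bool), IsClosed C ∧ A = C ∩ {x | {n | x n = true}.Infinite}) ∧
      UnionMad 𝒜} := by
    refine ⟨range Φ, rfl, ?_, hmad.congr hU⟩
    rintro _ ⟨w, rfl⟩
    refine ⟨Φ w, hΦcl w, ?_⟩
    symm
    rw [inter_eq_left]
    intro x hx
    exact hmad.mem_infinite x ⟨w.1, w.1.2, hΦsub w hx⟩
  have hFinf : ℵ₀ ≤ #F := aleph0_le_of_dominating hF
  calc aClosed ≤ #(range Φ) := csInf_le' hmem
    _ ≤ #(𝒜 × F × ℕ) := mk_range_le
    _ = #𝒜 * (#F * ℵ₀) := by simp [mk_prod]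
    _ ≤ max (max #𝒜 (#F * ℵ₀)) ℵ₀ := mul_le_max _ _
    _ ≤ max aBorel dCard := by
      rw [mul_aleph0_eq hFinf, hFcard, ← hcard, max_assoc]
      rw [hFcard] at hFinf
      exact max_le (le_max_left _ _) (max_le (le_max_right _ _) (hFinf.trans (le_max_right _ _)))

end Pool.Agent.H60.AD
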