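import Pool.Agent.H60.AD.Ultra
import Pool.Agent.H60.AD.Lower
import Pool.Agent.H60.AD.Upper

/-!
For every nonprincipal ultrafilter `U`, `min 𝔟 π𝔭(U) ≤ 𝔭𝔞𝔯_ω`.
-/

namespace Pool.Agent.H60.AD

open Set Cardinal

theorem seqPick (P : ℕ → ℕ → Prop) (h : ∀ n v, ∃ a, v < a ∧ P n a) :
    ∃ w : ℕ → ℕ, StrictMono w ∧ ∀ n, P n (w n) := by
  choose f hf hP using h
  let T : ℕ → ℕ := fun n => Nat.rec (f 0 0) (fun n v => f (n + 1) v) n
  have hT : ∀ n, T (n + 1) = f (n + 1) (T n) := fun n => rfl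
  refine ⟨T, strictMono_nat_of_lt_succ fun n => ?_, fun n => ?_⟩
  · rw [hT]; exact hf _ _
  · cases n with
    | zero => exact hP 0 0
    | succ n => rw [hT]; exact hP _ _

theorem seqStep (Q : ℕ → ℕ → Prop) (h : ∀ v, ∃ a, v < a ∧ Q v a) :
    ∃ w : ℕ → ℕ, StrictMono w ∧ ∀ n, Q (w n) (w (n + 1)) := by
  choose f hf hQ using h
  let T : ℕ → ℕ := fun n => Nat.rec 0 (fun _ v => f v) n
  have hT : ∀ n, T (n + 1) = f (T n) := fun n => rfl
  refine ⟨T, strictMono_nat_of_lt_succ fun n => ?_, fun n => ?_⟩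
  · rw [hT]; exact hf _
  · rw [hT]; exact hQ _

theorem infinite_of_mem {U : Ultrafilter ℕ} (hU : ∀ A : Set ℕ, A.Finite → A ∉ U) {A : Set ℕ}
    (hA : A ∈ U) : A.Infinite := fun h => hU A h hA

theorem countable_pseudo {U : Ultrafilter ℕ} (hU : ∀ A : Set ℕ, A.Finite → A ∉ U)
    {G : Set (Set ℕ)} (hG : G.Countable) (hGU : ∀ A ∈ G, A ∈ U) :
    ∃ W : Set ℕ, W.Infinite ∧ ∀ A ∈ G, (W \ A).Finite := by
  rcases G.eq_empty_or_nonempty with rfl | hne
  · exact ⟨univ, infinite_univ, fun A hA => absurd hA (notMem_empty A)⟩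
  obtain ⟨A, rfl⟩ := hG.exists_eq_range hne
  have hmem : ∀ n, (⋂ i ∈ Finset.range (n + 1), A i) ∈ U := fun n =>
    (Filter.biInter_finset_mem _).2 fun i _ => hGU _ (mem_range_self i)
  obtain ⟨w, hw, hP⟩ := seqPick (fun n a => a ∈ ⋂ i ∈ Finset.range (n + 1), A i) (by
    intro n v
    obtain ⟨k, hk, hv⟩ := exists_large (infinite_of_mem hU (hmem n)) (v + 1)
    exact ⟨k, hv, hk⟩)
  refine ⟨range w, Set.infinite_range_of_injective hw.injective, ?_⟩
  rintro _ ⟨i, rfl⟩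
  refine ((finite_Iio i).image w).subset ?_
  rintro _ ⟨⟨n, rfl⟩, hn⟩
  refine ⟨n, ?_, rfl⟩
  by_contra hc
  apply hn
  exact mem_iInter₂.1 (hP n) i (Finset.mem_range.2 (Nat.lt_succ_of_le (not_lt.1 hc)))

theorem aleph0_lt_pip {U : Ultrafilter ℕ} (hU : ∀ A : Set ℕ, A.Finite → A ∉ U)
    (h0 : pipCard U ≠ 0) : ℵ₀ < pipCard U := by
  have hne : {κ : Cardinal.{0} | ∃ G : Set (Set ℕ), #G = κ ∧ (∀ A ∈ G, A ∈ U) ∧
      ∀ W : Set ℕ, W.Infinite → ∃ A ∈ G, (W \ A).Infinite}.Nonempty := by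
    by_contra hcon
    rw [not_nonempty_iff_eq_empty] at hcon
    apply h0
    rw [pipCard, hcon]
    exact Cardinal.sInf_empty
  obtain ⟨G, hG, hGU, hW⟩ := csInf_mem hne
  change #G = pipCard U at hG
  rw [← hG, ← not_le, le_aleph0_iff_set_countable]
  intro hc
  obtain ⟨W, hWi, hWA⟩ := countable_pseudo hU hc hGU
  obtain ⟨A, hA, hinf⟩ := hW W hWi
  exact hinf (hWA A hA)

theorem min_le_of_family {U : Ultrafilter ℕ} (hU : ∀ A : Set ℕ, A.Finite → A ∉ U)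
    {𝓡 : Set (Set (ℕ → Bool))}
    (hB : ∀ R ∈ 𝓡, @MeasurableSet (ℕ → Bool) (borel (ℕ → Bool)) R)
    (hW : ∀ W : Set ℕ, W.Infinite → ∃ R ∈ 𝓡, ¬ AlmostHomog R W) :
    min bCard (pipCard U) ≤ #𝓡 := by
  classical
  by_contra hcon
  rw [not_le, lt_min_iff] at hcon
  obtain ⟨hb, hp⟩ := hcon
  have h0 : pipCard U ≠ 0 := fun h => by
    rw [h] at hp
    exact not_lt_zero hp
  have hdec : ∀ R : 𝓡, UDec U (fam R.1) ∅ := fun R => URam_of_borel hU (hB R.1 R.2) ∅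
  choose A hA hd using hdec
  -- a pseudointersection
  have hcard : #(range fun x : 𝓡 × Finset ℕ => A x.1 x.2) < pipCard U := by
    refine lt_of_le_of_lt mk_range_le ?_
    have h1 : #(𝓡 × Finset ℕ) = #𝓡 * ℵ₀ := by
      simp [mk_prod]
    rw [h1]
    refine lt_of_le_of_lt (mul_le_max _ _) ?_
    rw [max_assoc, max_self]
    exact max_lt hp (aleph0_lt_pip hU h0)
  have hps : ∃ W : Set ℕ, W.Infinite ∧ ∀ (R : 𝓡) (t : Finset ℕ), (W \ A R t).Finite := by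
    by_contra hno
    push Not at hno
    have h2 : pipCard U ≤ #(range fun x : 𝓡 × Finset ℕ => A x.1 x.2) := by
      refine csInf_le' ⟨_, rfl, ?_, ?_⟩
      · rintro _ ⟨x, rfl⟩
        exact hA x.1 x.2
      · intro W hWi
        obtain ⟨R, t, h⟩ := hno W hWi
        exact ⟨A R t, ⟨(R, t), rfl⟩, h⟩
    exact absurd hcard (not_lt.2 h2)
  obtain ⟨W, hWi, hWA⟩ := hps
  have hf : ∀ (R : 𝓡) (k : ℕ), ∃ N : ℕ, ∀ t : Finset ℕ, t ⊆ Finset.range (k + 1) →
      ∀ x ∈ W, N ≤ x → x ∈ A R t := by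
    intro R k
    have hfin : (⋃ t ∈ (Finset.range (k + 1)).powerset, W \ A R t).Finite :=
      Set.Finite.biUnion (Finset.finite_toSet _) fun t _ => hWA R t
    obtain ⟨N, hN⟩ := hfin.bddAbove
    refine ⟨N + 1, fun t ht x hx hNx => ?_⟩
    by_contra hxA
    have h3 : x ∈ ⋃ t ∈ (Finset.range (k + 1)).powerset, W \ A R t :=
      mem_iUnion₂.2 ⟨t, Finset.mem_powerset.2 ht, hx, hxA⟩
    have := hN h3
    omega
  choose f hf using hf
  -- a dominating function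
  have hg : ∃ g : ℕ → ℕ, ∀ R : 𝓡, ∃ m : ℕ, ∀ n, m ≤ n → f R n ≤ g n := by
    by_contra hno
    push Not at hno
    have h2 : bCard ≤ #(range f) := by
      refine csInf_le' ⟨_, rfl, fun g => ?_⟩
      obtain ⟨R, hR⟩ := hno g
      exact ⟨f R, mem_range_self R, hR⟩
    exact absurd (lt_of_lt_of_le hb h2) (not_lt.2 mk_range_le)
  obtain ⟨g, hg⟩ := hg
  obtain ⟨w, hw, hQ⟩ := seqStep (fun v a => a ∈ W ∧ g v ≤ a) (by
    intro v
    obtain ⟨k, hk, hv⟩ := exists_large hWi (v + 1 + g v)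
    exact ⟨k, by omega, hk, by omega⟩)
  let w' : ℕ → ℕ := fun n => w (n + 1)
  have hw' : StrictMono w' := fun i j hij => hw (by omega)
  obtain ⟨R, hR, hnot⟩ := hW (range w') (Set.infinite_range_of_injective hw'.injective)
  apply hnot
  obtain ⟨m, hm⟩ := hg ⟨R, hR⟩
  have key : ∀ x : ℕ → Bool, {n | x n = true}.Infinite →
      {n | x n = true} ⊆ range w' ∩ Ioi (max m (f ⟨R, hR⟩ 0)) →
      Br (A ⟨R, hR⟩) ∅ {n | x n = true} := by
    intro x hx hxs
    refine ⟨hx, fun z hz t ht => ?_⟩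
    rw [Finset.coe_empty, empty_union] at ht
    obtain ⟨⟨j, hj⟩, hz2⟩ := hxs hz
    rw [mem_Ioi, max_lt_iff] at hz2
    have hzW : z ∈ W := by rw [← hj]; exact (hQ j).1
    rcases t.eq_empty_or_nonempty with rfl | hne
    · exact hf ⟨R, hR⟩ 0 ∅ (Finset.empty_subset _) z hzW (le_of_lt hz2.2)
    · have hk := t.max'_mem hne
      set k := t.max' hne with hkdef
      have hk' : k ∈ {n | x n = true} ∩ Iio z := by rw [← ht]; exact hk
      obtain ⟨⟨i, hi⟩, hk2⟩ := hxs hk'.1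
      rw [mem_Ioi, max_lt_iff] at hk2
      have hij : i < j := by
        have h4 : w' i < w' j := by rw [hi, hj]; exact hk'.2
        exact hw'.lt_iff_lt.1 h4
      refine hf ⟨R, hR⟩ k t ?_ z hzW ?_
      · intro y hy
        rw [Finset.mem_range]
        exact Nat.lt_succ_of_le (t.le_max' y hy)
      · calc f ⟨R, hR⟩ k ≤ g k := hm k (le_of_lt hk2.1)
          _ = g (w (i + 1)) := by rw [← hi]
          _ ≤ w (i + 1 + 1) := (hQ (i + 1)).2
          _ ≤ w (j + 1) := hw.monotone (by omega)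
          _ = z := hj
  refine ⟨max m (f ⟨R, hR⟩ 0), ?_⟩
  rcases hd ⟨R, hR⟩ with hdd | hdd
  · left
    intro x hx hxs
    have h1 := hdd _ (key x hx hxs)
    rw [Finset.coe_empty, empty_union] at h1
    have h2 : ind {n | x n = true} ∈ R := h1
    rwa [ind_setOf] at h2
  · right
    intro x hx hxs h2
    refine hdd _ (key x hx hxs) ?_
    rw [Finset.coe_empty, empty_union]
    show ind {n | x n = true} ∈ R
    rwa [ind_setOf]

end Pool.Agent.H60.AD
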